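import Mathlib
import Pool.Agent.Cov.PNT
import Pool.Agent.Helper602.MK.J3

/-!
The sum of `log q / q` over the primes `1` modulo `4` (helper792).
-/

set_option autoImplicit false

namespace Pool.Agent.N792.SQ

open Finset Filter Topology

lemma abel_le (a : ℕ → ℝ) {κ C : ℝ} (hκ : 0 ≤ κ) (h : ∀ n : ℕ, ∑ k ∈ Icc 1 n, a k ≤ κ * n + C)
    (N : ℕ) (hN : 1 ≤ N) : ∑ k ∈ Icc 1 N, a k / k ≤ κ * Real.log N + κ + C := by
  have key : ∀ N : ℕ, 1 ≤ N → ∑ k ∈ Icc 1 N, a k / k - (∑ k ∈ Icc 1 N, a k) / N ≤ κ * Real.log N + C * (1 - 1 / N) := by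
    intro N hN
    induction N, hN using Nat.le_induction with
    | base => simp
    | succ N hN ih =>
      have hN0 : (0 : ℝ) < N := by exact_mod_cast hN
      have e1 : ∑ k ∈ Icc 1 (N + 1), a k / k = ∑ k ∈ Icc 1 N, a k / k + a (N + 1) / ((N + 1 : ℕ) : ℝ) :=
        sum_Icc_succ_top (by omega) _
      have e2 : ∑ k ∈ Icc 1 (N + 1), a k = ∑ k ∈ Icc 1 N, a k + a (N + 1) :=
        sum_Icc_succ_top (by omega) _
      rw [e1, e2]
      push_cast
      have h1 : (1 : ℝ) / (N + 1) ≤ Real.log (N + 1) - Real.log N := by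
        rw [← Real.log_div (by positivity) (by positivity)]
        refine le_trans (le_of_eq ?_) (Real.one_sub_inv_le_log_of_pos (by positivity))
        field_simp
        ring
      have h2 := h N
      obtain ⟨A, hA⟩ : ∃ A : ℝ, A = ∑ k ∈ Icc 1 N, a k := ⟨_, rfl⟩
      obtain ⟨S, hS⟩ : ∃ S : ℝ, S = ∑ k ∈ Icc 1 N, a k / k := ⟨_, rfl⟩
      rw [← hA, ← hS] at ih
      rw [← hA] at h2
      rw [← hA, ← hS]
      have h3 : A / N - A / (N + 1) ≤ κ * (1 / (N + 1)) + C * (1 / N - 1 / (N + 1)) := by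
        have e3 : A / N - A / (N + 1) = A * (1 / (N * (N + 1))) := by field_simp; ring
        have e4 : κ * (1 / ((N : ℝ) + 1)) + C * (1 / N - 1 / (N + 1)) = (κ * N + C) * (1 / (N * (N + 1))) := by
          field_simp
          ring
        rw [e3, e4]
        exact mul_le_mul_of_nonneg_right h2 (by positivity)
      have h4 : κ * (1 / ((N : ℝ) + 1)) ≤ κ * (Real.log (N + 1) - Real.log N) := mul_le_mul_of_nonneg_left h1 hκ
      have e5 : (A + a (N + 1)) / ((N : ℝ) + 1) = A / (N + 1) + a (N + 1) / (N + 1) := by ring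
      rw [e5]
      linarith
  have h1 := key N hN
  have h2 := h N
  have hN0 : (0 : ℝ) < N := by exact_mod_cast hN
  have h3 : (∑ k ∈ Icc 1 N, a k) / N ≤ κ + C * (1 / N) := by
    rw [div_le_iff₀ hN0]
    refine h2.trans (le_of_eq ?_)
    field_simp
  linarith

/-- Mertens modulo `4` -/
lemma mertens4 {δ : ℝ} (hδ : 0 < δ) : ∃ C : ℝ, ∀ Y : ℕ, 1 ≤ Y →
    ∑ q ∈ (Icc 1 Y).filter (fun q => q.Prime ∧ q % 4 = 1), Real.log q / q ≤ (1 / 2 + δ) * Real.log Y + C := by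
  have h := Pool.Agent.Cov.PNT.pnt_residueClass (q := 4) (a := 1) isUnit_one
  obtain ⟨f, hf⟩ : ∃ f : ℕ → ℝ, f = fun k => ArithmeticFunction.vonMangoldt.residueClass (1 : ZMod 4) k := ⟨_, rfl⟩
  have hf0 : ∀ k, 0 ≤ f k := by
    intro k
    rw [hf]
    exact ArithmeticFunction.vonMangoldt.residueClass_nonneg _ k
  have ht : Nat.totient 4 = 2 := by decide
  rw [ht] at h
  have h2 : ∀ᶠ x : ℝ in atTop, (∑ k ∈ Icc 1 ⌊x⌋₊, f k) / x ≤ 1 / 2 + δ := by
    have := h.eventually (eventually_le_nhds (show (((2 : ℕ) : ℝ))⁻¹ < 1 / 2 + δ by norm_num; exact hδ))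
    rw [hf]
    exact this
  obtain ⟨x0, hx0⟩ := eventually_atTop.1 h2
  obtain ⟨n0, hn0⟩ : ∃ n0 : ℕ, max x0 1 ≤ n0 := exists_nat_ge _
  have hA : ∀ n : ℕ, ∑ k ∈ Icc 1 n, f k ≤ (1 / 2 + δ) * n + ∑ k ∈ Icc 1 n0, f k := by
    intro n
    have hs0 : 0 ≤ ∑ k ∈ Icc 1 n0, f k := sum_nonneg fun k _ => hf0 k
    rcases le_total n0 n with h3 | h3
    · have h4 : (n0 : ℝ) ≤ n := by exact_mod_cast h3
      have h5 := hx0 n ((le_max_left _ _).trans (hn0.trans h4))
      rw [Nat.floor_natCast, div_le_iff₀ (by linarith [le_max_right x0 1])] at h5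
      linarith
    · have h4 : ∑ k ∈ Icc 1 n, f k ≤ ∑ k ∈ Icc 1 n0, f k :=
        sum_le_sum_of_subset_of_nonneg (Icc_subset_Icc le_rfl h3) (fun k _ _ => hf0 k)
      have : 0 ≤ (1 / 2 + δ) * (n : ℝ) := by positivity
      linarith
  refine ⟨(1 / 2 + δ) + ∑ k ∈ Icc 1 n0, f k, fun Y hY => ?_⟩
  have h3 := abel_le f (by positivity) hA Y hY
  refine le_trans ?_ (h3.trans (le_of_eq (by ring)))
  rw [sum_filter]
  apply sum_le_sum
  intro k hk
  split_ifs with h4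
  · have h5 : f k = Real.log k := by
      rw [hf]
      simp only [ArithmeticFunction.vonMangoldt.residueClass]
      rw [Set.indicator_of_mem]
      · exact ArithmeticFunction.vonMangoldt_apply_prime h4.1
      · have : ((k : ℕ) : ZMod 4) = ((1 : ℕ) : ZMod 4) := (ZMod.natCast_eq_natCast_iff' k 1 4).2 h4.2
        simpa using this
    rw [h5]
  · exact div_nonneg (hf0 k) (Nat.cast_nonneg _)

lemma prime_count : ∃ C : ℝ, 1 ≤ C ∧ ∀ N : ℕ, 2 ≤ N → (#((range N).filter Nat.Prime) : ℝ) ≤ C * (N / Real.log N) := by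
  obtain ⟨C, hC, h⟩ := Pool.Agent.Helper602.MK.BTLib.brun_titchmarsh
  refine ⟨C, hC, fun N hN => ?_⟩
  have h1 := h 0 1 N le_rfl hN
  simp only [zero_add, mul_one, Nat.totient_one, Nat.cast_one, div_one] at h1
  refine le_trans (le_of_eq ?_) (h1.trans (le_of_eq (by ring)))
  congr 2

end Pool.Agent.N792.SQ
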