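import Pool.Agent.N792.SQ.Gs
import Pool.Agent.N792.SQ.Me

/-!
Counting in the square (helper792).
-/

set_option autoImplicit false

namespace Pool.Agent.N792.SQ

open Finset

lemma exists_pi {q : ℕ} (hq : q.Prime) (hq4 : q % 4 = 1) : ∃ π : GaussianInt, π.norm = q := by
  haveI : Fact q.Prime := ⟨hq⟩
  obtain ⟨a, b, hab⟩ := Nat.Prime.sq_add_sq (p := q) (by omega)
  refine ⟨⟨a, b⟩, ?_⟩
  rw [Zsqrtd.norm_def]
  simp only
  have : ((a ^ 2 + b ^ 2 : ℕ) : ℤ) = q := by exact_mod_cast hab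
  push_cast at this
  linarith

lemma sqrt_bound {D : ℕ} (hD : 1 ≤ D) : D ≤ (Nat.sqrt D + 1) ^ 2 ∧ (Nat.sqrt D + 1) ^ 2 ≤ 4 * D := by
  constructor
  · exact (Nat.lt_succ_sqrt' D).le
  · have h1 := Nat.sqrt_le' D
    have h2 : 1 ≤ Nat.sqrt D := Nat.sqrt_pos.2 hD
    nlinarith

open Classical in
/-- multiples of a power of a Gaussian prime, real form -/
lemma mult_real {π : GaussianInt} {q : ℕ} (hq : q.Prime) (hq2 : q ≠ 2) (hπ : π.norm = q) (j X N : ℕ) {δ : ℝ}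
    (hδ : 0 < δ) : (#((box X N).filter (fun p => π ^ j ∣ toG p)) : ℝ) ≤
      4 * (1 + δ) * (N : ℝ) ^ 2 / (q : ℝ) ^ j + 16 * (1 + 1 / δ) := by
  have hD : 0 < q ^ j := pow_pos hq.pos j
  obtain ⟨h1, h2⟩ := sqrt_bound hD
  have hn : (π ^ j).norm = ((q ^ j : ℕ) : ℤ) := by
    have : (π ^ j).norm = π.norm ^ j := map_pow Zsqrtd.normMonoidHom π j
    rw [this, hπ]
    push_cast
    rfl
  have h3 := mult_count hD hn (pow_div hq hq2 hπ j) X N _ h1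
  obtain ⟨s, hs⟩ : ∃ s : ℕ, s = Nat.sqrt (q ^ j) + 1 := ⟨_, rfl⟩
  rw [← hs] at h2 h3
  have hq0 : (0 : ℝ) < (q : ℝ) ^ j := by
    have : (0 : ℝ) < q := by exact_mod_cast hq.pos
    positivity
  have h4 : (#((box X N).filter (fun p => π ^ j ∣ toG p)) : ℝ) * (q : ℝ) ^ j ≤ (2 * ((N : ℝ) + s)) ^ 2 := by
    exact_mod_cast h3
  have h5 : (s : ℝ) ^ 2 ≤ 4 * (q : ℝ) ^ j := by exact_mod_cast h2
  have h6 : ((N : ℝ) + s) ^ 2 ≤ (1 + δ) * (N : ℝ) ^ 2 + (1 + 1 / δ) * (s : ℝ) ^ 2 := by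
    have h7 : 2 * (N : ℝ) * s ≤ δ * (N : ℝ) ^ 2 + 1 / δ * (s : ℝ) ^ 2 := by
      have h8 : 0 ≤ (δ * N - s) ^ 2 / δ := by positivity
      have h9 : (δ * N - s) ^ 2 / δ = δ * (N : ℝ) ^ 2 - 2 * N * s + 1 / δ * (s : ℝ) ^ 2 := by
        field_simp
        ring
      linarith
    nlinarith
  rw [div_add' _ _ _ hq0.ne', le_div_iff₀ hq0]
  have hδ' : 0 < 1 + 1 / δ := by positivity
  have h10 : (1 + 1 / δ) * (s : ℝ) ^ 2 ≤ (1 + 1 / δ) * (4 * (q : ℝ) ^ j) := mul_le_mul_of_nonneg_left h5 hδ'.le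
  nlinarith

lemma nm_pos {p : ℤ × ℤ} (h : p.2 ≠ 0) : 0 < nm p := by
  have h1 := nm_cast p
  have h2 : 0 < p.2 ^ 2 := by positivity
  have h3 : 0 ≤ p.1 ^ 2 := by positivity
  omega

open Classical in
/-- the sum of the valuations -/
lemma sum_val {q : ℕ} (hq : q.Prime) (hq4 : q % 4 = 1) (X N Z : ℕ) (hZ : ∀ p ∈ box X N, nm p ≤ Z) {δ : ℝ} (hδ : 0 < δ) :
    ∑ p ∈ (box X N).filter (fun p => p.2 ≠ 0), ((nm p).factorization q : ℝ) * Real.log q ≤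
      8 * (1 + δ) * (N : ℝ) ^ 2 * (Real.log q / q + 4 / (q : ℝ) ^ (3 / 2 : ℝ)) + 32 * (1 + 1 / δ) * Real.log Z := by
  obtain ⟨π, hπ⟩ := exists_pi hq hq4
  have hq2 : q ≠ 2 := by omega
  have hq1 : (1 : ℝ) < q := by exact_mod_cast hq.one_lt
  have hlogq : 0 < Real.log q := Real.log_pos hq1
  have hq5 : (5 : ℝ) ≤ q := by
    have h2 := hq.two_le
    have : 5 ≤ q := by
      by_contra hcon
      push Not at hcon
      interval_cases q <;> simp_all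
    exact_mod_cast this
  obtain ⟨J, hJ⟩ : ∃ J : ℕ, J = Nat.log q Z := ⟨_, rfl⟩
  -- pointwise
  have h1 : ∀ p ∈ (box X N).filter (fun p => p.2 ≠ 0), ((nm p).factorization q : ℝ) ≤
      ∑ j ∈ Icc 1 J, ((if π ^ j ∣ toG p then (1 : ℝ) else 0) + (if (star π) ^ j ∣ toG p then (1 : ℝ) else 0)) := by
    intro p hp
    rw [mem_filter] at hp
    have hn0 := nm_pos hp.2
    obtain ⟨v, hv⟩ : ∃ v : ℕ, v = (nm p).factorization q := ⟨_, rfl⟩
    have hvd : q ^ v ∣ nm p := by rw [hv]; exact Nat.ordProj_dvd _ _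
    have hvJ : v ≤ J := by
      rw [hJ]
      apply Nat.le_log_of_pow_le hq.one_lt
      exact (Nat.le_of_dvd hn0 hvd).trans (hZ p hp.1)
    have h2 : (q : ℤ) ^ v ∣ (toG p).norm := by
      rw [norm_toG, ← nm_cast]
      exact_mod_cast hvd
    obtain ⟨i, l, hil, hi, hl⟩ := val_split hq hπ v (toG p) h2
    rw [← hv, sum_add_distrib]
    have h3 : (i : ℝ) ≤ ∑ j ∈ Icc 1 J, (if π ^ j ∣ toG p then (1 : ℝ) else 0) := by
      calc (i : ℝ) = ∑ j ∈ Icc 1 i, (1 : ℝ) := by simp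
        _ = ∑ j ∈ Icc 1 i, (if π ^ j ∣ toG p then (1 : ℝ) else 0) := by
            refine sum_congr rfl fun j hj => ?_
            rw [if_pos ((pow_dvd_pow π (mem_Icc.1 hj).2).trans hi)]
        _ ≤ _ := sum_le_sum_of_subset_of_nonneg (Icc_subset_Icc le_rfl (by omega))
            (fun _ _ _ => by split_ifs <;> norm_num)
    have h4 : (l : ℝ) ≤ ∑ j ∈ Icc 1 J, (if (star π) ^ j ∣ toG p then (1 : ℝ) else 0) := by
      calc (l : ℝ) = ∑ j ∈ Icc 1 l, (1 : ℝ) := by simp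
        _ = ∑ j ∈ Icc 1 l, (if (star π) ^ j ∣ toG p then (1 : ℝ) else 0) := by
            refine sum_congr rfl fun j hj => ?_
            rw [if_pos ((pow_dvd_pow (star π) (mem_Icc.1 hj).2).trans hl)]
        _ ≤ _ := sum_le_sum_of_subset_of_nonneg (Icc_subset_Icc le_rfl (by omega))
            (fun _ _ _ => by split_ifs <;> norm_num)
    have h5 : (v : ℝ) = i + l := by rw [← hil]; push_cast; rfl
    rw [h5]
    linarith
  have hJlog : (J : ℝ) * Real.log q ≤ Real.log Z := by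
    rcases Nat.eq_zero_or_pos Z with hZ0 | hZ0
    · rw [hJ, hZ0]; simp
    · rw [← Real.log_pow]
      apply Real.log_le_log (by positivity)
      have := Nat.pow_log_le_self q hZ0.ne'
      rw [hJ]
      exact_mod_cast this
  have hcount : ∀ (ρ : GaussianInt), ρ.norm = q → ∀ j : ℕ,
      ∑ p ∈ (box X N).filter (fun p => p.2 ≠ 0), (if ρ ^ j ∣ toG p then (1 : ℝ) else 0) ≤
      4 * (1 + δ) * (N : ℝ) ^ 2 / (q : ℝ) ^ j + 16 * (1 + 1 / δ) := by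
    intro ρ hρ j
    refine le_trans ?_ (mult_real hq hq2 hρ j X N hδ)
    rw [card_filter]
    push_cast
    exact sum_le_sum_of_subset_of_nonneg (filter_subset _ _) (fun _ _ _ => by split_ifs <;> norm_num)
  have h6 : ∑ p ∈ (box X N).filter (fun p => p.2 ≠ 0), ((nm p).factorization q : ℝ) ≤
      ∑ j ∈ Icc 1 J, (8 * (1 + δ) * (N : ℝ) ^ 2 / (q : ℝ) ^ j + 32 * (1 + 1 / δ)) := by
    refine (sum_le_sum h1).trans ?_
    rw [sum_comm]
    refine sum_le_sum fun j _ => ?_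
    rw [sum_add_distrib]
    have a1 := hcount π hπ j
    have a2 := hcount (star π) (norm_star_pi hπ) j
    have e : 8 * (1 + δ) * (N : ℝ) ^ 2 / (q : ℝ) ^ j = 2 * (4 * (1 + δ) * (N : ℝ) ^ 2 / (q : ℝ) ^ j) := by ring
    rw [e]
    linarith
  have h7 : ∑ j ∈ Icc 1 J, (1 : ℝ) / (q : ℝ) ^ j ≤ 1 / (q - 1) := by
    have key : ∀ J : ℕ, ∑ j ∈ Icc 1 J, (1 : ℝ) / (q : ℝ) ^ j ≤ 1 / (q - 1) * (1 - 1 / (q : ℝ) ^ J) := by
      intro J
      induction J with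
      | zero => simp
      | succ J ih =>
        rw [sum_Icc_succ_top (by omega)]
        have hqm : (0 : ℝ) < q - 1 := by linarith
        have e : 1 / ((q : ℝ) - 1) * (1 - 1 / (q : ℝ) ^ (J + 1)) = 1 / (q - 1) * (1 - 1 / (q : ℝ) ^ J) +
            1 / (q : ℝ) ^ (J + 1) := by
          field_simp
          ring
        rw [e]
        linarith
    refine (key J).trans ?_
    have hqm : (0 : ℝ) < q - 1 := by linarith
    have : 0 ≤ 1 / (q : ℝ) ^ J := by positivity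
    have h8 : 0 ≤ 1 / ((q : ℝ) - 1) := by positivity
    nlinarith
  have h8 : (1 : ℝ) / (q - 1) ≤ 1 / q + 2 / (q : ℝ) ^ 2 := by
    have hqm : (0 : ℝ) < q - 1 := by linarith
    rw [div_add_div _ _ (by positivity) (by positivity), div_le_div_iff₀ hqm (by positivity)]
    nlinarith [sq_nonneg (q : ℝ)]
  have h9 : Real.log q * (2 / (q : ℝ) ^ 2) ≤ 4 / (q : ℝ) ^ (3 / 2 : ℝ) := by
    have e1 : Real.log q ≤ 2 * (q : ℝ) ^ (1 / 2 : ℝ) := by
      have := Real.log_le_rpow_div (show (0 : ℝ) ≤ q by linarith) (show (0 : ℝ) < 1 / 2 by norm_num)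
      linarith
    have e2 : (q : ℝ) ^ 2 = (q : ℝ) ^ (3 / 2 : ℝ) * (q : ℝ) ^ (1 / 2 : ℝ) := by
      rw [← Real.rpow_add (by linarith)]
      norm_num
    rw [e2]
    have hp1 : 0 < (q : ℝ) ^ (3 / 2 : ℝ) := by positivity
    have hp2 : 0 < (q : ℝ) ^ (1 / 2 : ℝ) := by positivity
    calc Real.log q * (2 / ((q : ℝ) ^ (3 / 2 : ℝ) * (q : ℝ) ^ (1 / 2 : ℝ)))
        ≤ (2 * (q : ℝ) ^ (1 / 2 : ℝ)) * (2 / ((q : ℝ) ^ (3 / 2 : ℝ) * (q : ℝ) ^ (1 / 2 : ℝ))) := by gcongr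
      _ = _ := by field_simp; ring
  rw [← sum_mul]
  calc (∑ p ∈ (box X N).filter (fun p => p.2 ≠ 0), ((nm p).factorization q : ℝ)) * Real.log q
      ≤ (∑ j ∈ Icc 1 J, (8 * (1 + δ) * (N : ℝ) ^ 2 / (q : ℝ) ^ j + 32 * (1 + 1 / δ))) * Real.log q := by gcongr
    _ = 8 * (1 + δ) * (N : ℝ) ^ 2 * ((∑ j ∈ Icc 1 J, (1 : ℝ) / (q : ℝ) ^ j) * Real.log q) +
        32 * (1 + 1 / δ) * (J * Real.log q) := by
        rw [sum_add_distrib, sum_const, Nat.card_Icc, nsmul_eq_mul]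
        have e : ∑ j ∈ Icc 1 J, 8 * (1 + δ) * (N : ℝ) ^ 2 / (q : ℝ) ^ j =
            8 * (1 + δ) * (N : ℝ) ^ 2 * ∑ j ∈ Icc 1 J, (1 : ℝ) / (q : ℝ) ^ j := by
          rw [mul_sum]
          refine sum_congr rfl fun j _ => by ring
        rw [e]
        push_cast
        ring
    _ ≤ 8 * (1 + δ) * (N : ℝ) ^ 2 * (Real.log q / q + 4 / (q : ℝ) ^ (3 / 2 : ℝ)) + 32 * (1 + 1 / δ) * Real.log Z := by
        have e1 : (∑ j ∈ Icc 1 J, (1 : ℝ) / (q : ℝ) ^ j) * Real.log q ≤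
            Real.log q / q + 4 / (q : ℝ) ^ (3 / 2 : ℝ) := by
          calc (∑ j ∈ Icc 1 J, (1 : ℝ) / (q : ℝ) ^ j) * Real.log q ≤ (1 / q + 2 / (q : ℝ) ^ 2) * Real.log q := by
                gcongr
                exact h7.trans h8
            _ = Real.log q / q + Real.log q * (2 / (q : ℝ) ^ 2) := by ring
            _ ≤ _ := by linarith
        gcongr

end Pool.Agent.N792.SQ
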