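import Pool.Agent.N792.SQ.Ns

/-!
Many elements of the square have a large prime factor (helper792).
-/

set_option autoImplicit false

namespace Pool.Agent.N792.SQ

open Finset Filter Topology

/-- the centre of the square -/
noncomputable def cen (ε : ℝ) (N : ℕ) : ℕ := ⌊(N : ℝ) ^ (1 + ε)⌋₊

/-- the set of the elements without a large prime factor -/
noncomputable def Gd (ε : ℝ) (K N : ℕ) : Finset (ℤ × ℤ) := by
  classical
  exact (box (cen ε N) N).filter (fun p => ∀ q : ℕ, q.Prime → q % 4 = 1 → q ∣ nm p → q ≤ K ^ 2 * N ^ 2)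

/-- the primes -/
def P1 (Y : ℕ) : Finset ℕ := (Icc 1 Y).filter (fun q => q.Prime ∧ q % 4 = 1)

/-- the upper bound for the sum of the logarithms -/
lemma log_sum {δ : ℝ} (hδ : 0 < δ) : ∃ C : ℝ, 0 ≤ C ∧ ∀ (K X N Z : ℕ), 1 ≤ K → 2 ≤ N → (∀ p ∈ box X N, nm p ≤ Z) →
    ∑ p ∈ (box X N).filter (fun p => p.2 ≠ 0), (2 * Real.log (Int.gcd p.1 p.2) + Real.log 2 +
      ∑ q ∈ P1 (K ^ 2 * N ^ 2), ((nm p).factorization q : ℝ) * Real.log q) ≤
    (N : ℝ) ^ 2 * (16 * (1 + δ) * (1 / 2 + δ) * Real.log N + C * (1 + Real.log K) +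
      C * (K : ℝ) ^ 2 * (1 + Real.log Z / Real.log N)) := by
  classical
  obtain ⟨C0, h0⟩ := sum_gcd
  obtain ⟨C1, h1⟩ := mertens4 hδ
  obtain ⟨C2, hC2, h2⟩ := prime_count
  have hsum : Summable (fun n : ℕ => 1 / (n : ℝ) ^ (3 / 2 : ℝ)) := Real.summable_one_div_nat_rpow.2 (by norm_num)
  obtain ⟨A, hA⟩ : ∃ A : ℝ, A = ∑' n : ℕ, 1 / (n : ℝ) ^ (3 / 2 : ℝ) := ⟨_, rfl⟩
  have hA0 : 0 ≤ A := by rw [hA]; exact tsum_nonneg fun n => by positivity
  obtain ⟨C, hC⟩ : ∃ C : ℝ, C = |C0| + 4 + 8 * (1 + δ) * (|C1| + 4 * A + 2 * (1 / 2 + δ)) + 32 * (1 + 1 / δ) * C2 := ⟨_, rfl⟩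
  have hδ1 : 0 < 1 + 1 / δ := by positivity
  refine ⟨C, by rw [hC]; positivity, fun K X N Z hK hN hZ => ?_⟩
  have hNR : (2 : ℝ) ≤ N := by exact_mod_cast hN
  have hKR : (1 : ℝ) ≤ K := by exact_mod_cast hK
  have hlogN : 0 < Real.log N := Real.log_pos (by linarith)
  have hlogK : 0 ≤ Real.log K := Real.log_nonneg hKR
  obtain ⟨Y, hY⟩ : ∃ Y : ℕ, Y = K ^ 2 * N ^ 2 := ⟨_, rfl⟩
  rw [← hY]
  have hYR : (Y : ℝ) = (K : ℝ) ^ 2 * (N : ℝ) ^ 2 := by rw [hY]; push_cast; rfl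
  have hY4 : 4 ≤ Y := by
    rw [hY]
    have : 1 ≤ K ^ 2 := Nat.one_le_pow _ _ hK
    nlinarith
  have hlogY : Real.log Y = 2 * Real.log K + 2 * Real.log N := by
    rw [hYR, Real.log_mul (by positivity) (by positivity), Real.log_pow, Real.log_pow]
    push_cast
    ring
  -- number of the elements
  have hbox : (#((box X N).filter (fun p => p.2 ≠ 0)) : ℝ) ≤ 4 * (N : ℝ) ^ 2 := by
    have e1 : #((box X N).filter (fun p => p.2 ≠ 0)) ≤ (2 * N) ^ 2 := by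
      refine (card_filter_le _ _).trans ?_
      rw [card_box X N (by omega)]
      exact Nat.pow_le_pow_left (by omega) 2
    have e2 : (#((box X N).filter (fun p => p.2 ≠ 0)) : ℝ) ≤ (2 * (N : ℝ)) ^ 2 := by exact_mod_cast e1
    refine e2.trans (le_of_eq (by ring))
  -- number of the primes
  have hcard : (#(P1 Y) : ℝ) ≤ C2 * ((K : ℝ) ^ 2 * (N : ℝ) ^ 2 / Real.log N) := by
    have e1 : #(P1 Y) ≤ #((range (Y + 1)).filter Nat.Prime) := by
      apply card_le_card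
      intro q hq
      unfold P1 at hq
      rw [mem_filter, mem_Icc] at hq
      rw [mem_filter, mem_range]
      exact ⟨by omega, hq.2.1⟩
    have e2 := h2 (Y + 1) (by omega)
    have e3 : (#(P1 Y) : ℝ) ≤ #((range (Y + 1)).filter Nat.Prime) := by exact_mod_cast e1
    refine e3.trans (e2.trans ?_)
    have e4 : ((Y + 1 : ℕ) : ℝ) ≤ 2 * ((K : ℝ) ^ 2 * (N : ℝ) ^ 2) := by
      push_cast
      rw [hYR]
      have : (1 : ℝ) ≤ (K : ℝ) ^ 2 * (N : ℝ) ^ 2 := by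
        rw [← hYR]
        exact_mod_cast (by omega : 1 ≤ Y)
      linarith
    have e5 : 2 * Real.log N ≤ Real.log ((Y + 1 : ℕ) : ℝ) := by
      have : Real.log Y ≤ Real.log ((Y + 1 : ℕ) : ℝ) := by
        apply Real.log_le_log
        · exact_mod_cast (by omega : 0 < Y)
        · push_cast; linarith
      linarith
    calc C2 * (((Y + 1 : ℕ) : ℝ) / Real.log ((Y + 1 : ℕ) : ℝ)) ≤
        C2 * ((2 * ((K : ℝ) ^ 2 * (N : ℝ) ^ 2)) / (2 * Real.log N)) := by gcongr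
      _ = _ := by
          rw [mul_div_mul_left _ _ (two_ne_zero)]
  rcases Nat.eq_zero_or_pos Z with hZ0 | hZ0
  · exfalso
    have hp : ((X : ℤ), (1 : ℤ)) ∈ box X N := by
      unfold box
      rw [mem_product, mem_Ioo, mem_Ioo]
      refine ⟨⟨?_, ?_⟩, ?_, ?_⟩ <;> dsimp only <;> omega
    have h3 := hZ _ hp
    have h4 : 0 < nm ((X : ℤ), (1 : ℤ)) := nm_pos (by norm_num)
    omega
  have hlogZ : 0 ≤ Real.log Z := Real.log_natCast_nonneg Z
  -- the sum over the primes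
  have hprimes : ∑ q ∈ P1 Y, ∑ p ∈ (box X N).filter (fun p => p.2 ≠ 0), ((nm p).factorization q : ℝ) * Real.log q ≤
      8 * (1 + δ) * (N : ℝ) ^ 2 * ((1 / 2 + δ) * Real.log Y + C1 + 4 * A) + 32 * (1 + 1 / δ) * Real.log Z * #(P1 Y) := by
    have e1 : ∀ q ∈ P1 Y, ∑ p ∈ (box X N).filter (fun p => p.2 ≠ 0), ((nm p).factorization q : ℝ) * Real.log q ≤
        8 * (1 + δ) * (N : ℝ) ^ 2 * (Real.log q / q + 4 * (1 / (q : ℝ) ^ (3 / 2 : ℝ))) + 32 * (1 + 1 / δ) * Real.log Z := by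
      intro q hq
      unfold P1 at hq
      rw [mem_filter] at hq
      have := sum_val hq.2.1 hq.2.2 X N Z hZ hδ
      refine this.trans (le_of_eq (by ring))
    refine (sum_le_sum e1).trans ?_
    rw [sum_add_distrib, ← mul_sum, sum_add_distrib, ← mul_sum, sum_const, nsmul_eq_mul]
    have e2 : ∑ q ∈ P1 Y, Real.log q / q ≤ (1 / 2 + δ) * Real.log Y + C1 := h1 Y (by omega)
    have e3 : ∑ q ∈ P1 Y, 1 / (q : ℝ) ^ (3 / 2 : ℝ) ≤ A := by
      rw [hA]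
      exact hsum.sum_le_tsum _ (fun _ _ => by positivity)
    have e4 : 8 * (1 + δ) * (N : ℝ) ^ 2 * (∑ q ∈ P1 Y, Real.log q / q + 4 * ∑ q ∈ P1 Y, 1 / (q : ℝ) ^ (3 / 2 : ℝ)) ≤
        8 * (1 + δ) * (N : ℝ) ^ 2 * ((1 / 2 + δ) * Real.log Y + C1 + 4 * A) := by
      apply mul_le_mul_of_nonneg_left _ (by positivity)
      linarith
    linarith
  rw [sum_add_distrib, sum_add_distrib, sum_comm (s := (box X N).filter (fun p => p.2 ≠ 0)), sum_const, nsmul_eq_mul]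
  have hg := h0 X N (by omega)
  have hl2 : Real.log 2 ≤ 1 := by
    have := Real.log_two_lt_d9
    linarith
  have hl20 : 0 ≤ Real.log 2 := Real.log_nonneg (by norm_num)
  have hN2 : 0 ≤ (N : ℝ) ^ 2 := by positivity
  have b1 : C0 * (N : ℝ) ^ 2 ≤ |C0| * (N : ℝ) ^ 2 := mul_le_mul_of_nonneg_right (le_abs_self _) hN2
  have b2 : (#((box X N).filter (fun p => p.2 ≠ 0)) : ℝ) * Real.log 2 ≤ 4 * (N : ℝ) ^ 2 := by
    calc (#((box X N).filter (fun p => p.2 ≠ 0)) : ℝ) * Real.log 2 ≤ (4 * (N : ℝ) ^ 2) * 1 := by gcongr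
      _ = _ := by ring
  have b3 : 32 * (1 + 1 / δ) * Real.log Z * #(P1 Y) ≤
      (N : ℝ) ^ 2 * ((32 * (1 + 1 / δ) * C2) * (K : ℝ) ^ 2 * (Real.log Z / Real.log N)) := by
    calc 32 * (1 + 1 / δ) * Real.log Z * #(P1 Y) ≤
        32 * (1 + 1 / δ) * Real.log Z * (C2 * ((K : ℝ) ^ 2 * (N : ℝ) ^ 2 / Real.log N)) := by gcongr
      _ = _ := by ring
  have b4 : 8 * (1 + δ) * (N : ℝ) ^ 2 * ((1 / 2 + δ) * Real.log Y + C1 + 4 * A) ≤
      (N : ℝ) ^ 2 * (16 * (1 + δ) * (1 / 2 + δ) * Real.log N) +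
      (N : ℝ) ^ 2 * ((8 * (1 + δ) * (|C1| + 4 * A + 2 * (1 / 2 + δ))) * (1 + Real.log K)) := by
    rw [hlogY]
    have e1 : C1 ≤ |C1| := le_abs_self _
    have e2 : (1 / 2 + δ) * (2 * Real.log K + 2 * Real.log N) + C1 + 4 * A ≤
        2 * (1 / 2 + δ) * Real.log N + (|C1| + 4 * A + 2 * (1 / 2 + δ)) * (1 + Real.log K) := by
      have e3 : 0 ≤ (|C1| + 4 * A) * Real.log K := by positivity
      nlinarith
    have e3 := mul_le_mul_of_nonneg_left e2 (show 0 ≤ 8 * (1 + δ) * (N : ℝ) ^ 2 by positivity)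
    refine e3.trans (le_of_eq (by ring))
  have hratio : 0 ≤ Real.log Z / Real.log N := by positivity
  have hK2 : 0 ≤ (K : ℝ) ^ 2 := by positivity
  have c1 : |C0| + 4 + 8 * (1 + δ) * (|C1| + 4 * A + 2 * (1 / 2 + δ)) ≤ C := by
    rw [hC]
    have : 0 ≤ 32 * (1 + 1 / δ) * C2 := by positivity
    linarith
  have c2 : 32 * (1 + 1 / δ) * C2 ≤ C := by
    rw [hC]
    have : 0 ≤ |C0| + 4 + 8 * (1 + δ) * (|C1| + 4 * A + 2 * (1 / 2 + δ)) := by positivity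
    linarith
  have d1 : |C0| + 4 + (8 * (1 + δ) * (|C1| + 4 * A + 2 * (1 / 2 + δ))) * (1 + Real.log K) ≤ C * (1 + Real.log K) := by
    have : (|C0| + 4) * 1 ≤ (|C0| + 4) * (1 + Real.log K) := by
      apply mul_le_mul_of_nonneg_left _ (by positivity)
      linarith
    have e := mul_le_mul_of_nonneg_right c1 (show 0 ≤ 1 + Real.log K by positivity)
    nlinarith
  have d2 : (32 * (1 + 1 / δ) * C2) * (K : ℝ) ^ 2 * (Real.log Z / Real.log N) ≤
      C * (K : ℝ) ^ 2 * (1 + Real.log Z / Real.log N) := by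
    have hC0 : 0 ≤ C := le_trans (by positivity) c2
    gcongr
    linarith
  have d3 := mul_le_mul_of_nonneg_left d1 hN2
  have d4 := mul_le_mul_of_nonneg_left d2 hN2
  nlinarith

end Pool.Agent.N792.SQ
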