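import Pool.Agent.N792.SQ.Ml

/-!
The diagonal construction (helper792).
-/

set_option autoImplicit false

namespace Pool.Agent.N792.SQ

open Finset Filter Topology

/-- the elements of the square whose norm is divisible by an element of `F` -/
noncomputable def Hit (ε : ℝ) (F : Finset ℕ) (N : ℕ) : Finset (ℤ × ℤ) := by
  classical
  exact (box (cen ε N) N).filter (fun p => ∃ q ∈ F, q ∣ nm p)

lemma mem_Hit {ε : ℝ} {F : Finset ℕ} {N : ℕ} {p : ℤ × ℤ} : p ∈ Hit ε F N ↔ p ∈ box (cen ε N) N ∧ ∃ q ∈ F, q ∣ nm p := by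
  classical
  unfold Hit
  rw [mem_filter]

lemma nm_pos_box {ε : ℝ} (hε : 0 < ε) {N : ℕ} (hN : 1 ≤ N) : ∀ p ∈ box (cen ε N) N, 0 < nm p := by
  intro p hp
  have hc := cen_ge hε hN
  unfold box at hp
  rw [mem_product, mem_Ioo, mem_Ioo] at hp
  have h1 : 0 < p.1 := by
    have : (N : ℤ) ≤ cen ε N := by exact_mod_cast hc
    linarith [hp.1.1]
  have h2 := nm_cast p
  have h3 : 0 < p.1 ^ 2 := by positivity
  have h4 : 0 ≤ p.2 ^ 2 := by positivity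
  omega

lemma one_prime {ε : ℝ} {q : ℕ} (hq : q.Prime) (hq4 : q % 4 = 1) (N : ℕ) :
    (#(Hit ε {q} N) : ℝ) ≤ 10 * (N : ℝ) ^ 2 / q + 160 := by
  classical
  obtain ⟨π, hπ⟩ := exists_pi hq hq4
  have hq2 : q ≠ 2 := by omega
  have h1 : Hit ε {q} N ⊆ (box (cen ε N) N).filter (fun p => π ^ 1 ∣ toG p) ∪
      (box (cen ε N) N).filter (fun p => (star π) ^ 1 ∣ toG p) := by
    intro p hp
    rw [mem_Hit] at hp
    obtain ⟨hb, q', hq', hd⟩ := hp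
    rw [mem_singleton] at hq'
    subst hq'
    have h2 : (q' : ℤ) ^ 1 ∣ (toG p).norm := by
      rw [norm_toG, ← nm_cast, pow_one]
      exact_mod_cast hd
    obtain ⟨i, l, hil, hi, hl⟩ := val_split hq hπ 1 (toG p) h2
    rw [mem_union, mem_filter, mem_filter]
    rcases Nat.eq_zero_or_pos i with h0 | h0
    · right
      have : l = 1 := by omega
      rw [this] at hl
      exact ⟨hb, hl⟩
    · left
      have : i = 1 := by omega
      rw [this] at hi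
      exact ⟨hb, hi⟩
  have h2 := mult_real hq hq2 hπ 1 (cen ε N) N (δ := 1 / 4) (by norm_num)
  have h3 := mult_real hq hq2 (norm_star_pi hπ) 1 (cen ε N) N (δ := 1 / 4) (by norm_num)
  have h4 : (#(Hit ε {q} N) : ℝ) ≤ #((box (cen ε N) N).filter (fun p => π ^ 1 ∣ toG p)) +
      #((box (cen ε N) N).filter (fun p => (star π) ^ 1 ∣ toG p)) := by
    exact_mod_cast (card_le_card h1).trans (card_union_le _ _)
  have e : 4 * (1 + 1 / 4) * (N : ℝ) ^ 2 / (q : ℝ) ^ 1 + 16 * (1 + 1 / (1 / 4)) = (10 * (N : ℝ) ^ 2 / q + 160) / 2 := by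
    rw [pow_one]
    ring
  rw [e] at h2 h3
  refine h4.trans ?_
  refine (add_le_add (le_trans (le_of_eq ?_) h2) (le_trans (le_of_eq ?_) h3)).trans (le_of_eq (by ring))
  · congr 2
  · congr 2

/-- hits of a finite set of primes -/
lemma hit_le {ε : ℝ} {F : Finset ℕ} (hF : ∀ q ∈ F, q.Prime ∧ q % 4 = 1) : ∀ᶠ M : ℕ in atTop,
    (#(Hit ε F M) : ℝ) ≤ 4 * (∑ q ∈ F, 1 / (q : ℝ)) * #(box (cen ε M) M) := by
  classical
  have h1 : ∀ᶠ M : ℕ in atTop, ∀ q ∈ F, (80 * q : ℝ) ≤ M := by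
    rw [Filter.eventually_all_finset]
    intro q _
    exact tendsto_natCast_atTop_atTop.eventually_ge_atTop _
  filter_upwards [h1, eventually_ge_atTop 4] with M hM hM4
  have hMR : (4 : ℝ) ≤ M := by exact_mod_cast hM4
  have hbox : 3 * (M : ℝ) ^ 2 ≤ #(box (cen ε M) M) := by
    rw [card_box _ M (by omega)]
    push_cast [Nat.cast_sub (show 1 ≤ 2 * M by omega)]
    nlinarith
  have h2 : Hit ε F M ⊆ F.biUnion (fun q => Hit ε {q} M) := by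
    intro p hp
    rw [mem_Hit] at hp
    obtain ⟨hb, q, hq, hd⟩ := hp
    rw [mem_biUnion]
    refine ⟨q, hq, ?_⟩
    rw [mem_Hit]
    exact ⟨hb, q, mem_singleton_self q, hd⟩
  have h3 : (#(Hit ε F M) : ℝ) ≤ ∑ q ∈ F, (#(Hit ε {q} M) : ℝ) := by
    exact_mod_cast (card_le_card h2).trans card_biUnion_le
  refine h3.trans ?_
  rw [mul_sum, sum_mul]
  apply sum_le_sum
  intro q hq
  obtain ⟨hqp, hq4⟩ := hF q hq
  have hq0 : (0 : ℝ) < q := by exact_mod_cast hqp.pos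
  have h4 := one_prime (ε := ε) hqp hq4 M
  refine h4.trans ?_
  have h5 : 4 * (1 / (q : ℝ)) * (3 * (M : ℝ) ^ 2) ≤ 4 * (1 / (q : ℝ)) * #(box (cen ε M) M) := by gcongr
  refine le_trans ?_ h5
  have h6 : 160 ≤ 2 * (M : ℝ) ^ 2 / q := by
    rw [le_div_iff₀ hq0]
    have := hM q hq
    nlinarith
  have e : 4 * (1 / (q : ℝ)) * (3 * (M : ℝ) ^ 2) = 10 * (M : ℝ) ^ 2 / q + 2 * (M : ℝ) ^ 2 / q := by
    field_simp
    ring
  rw [e]
  linarith

/-- one block -/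
lemma block {ε : ℝ} (hε : 0 < ε) {θ : ℝ} (hθ : 0 < θ) (B : ℕ) : ∃ (F : Finset ℕ) (N : ℕ), B ≤ N ∧
    (∀ q ∈ F, (q.Prime ∧ q % 4 = 1) ∧ B < q) ∧
    ε / (8 * (1 + ε)) * #(box (cen ε N) N) ≤ (#(Hit ε F N) : ℝ) ∧
    ∀ᶠ M : ℕ in atTop, (#(Hit ε F M) : ℝ) ≤ θ * #(box (cen ε M) M) := by
  classical
  obtain ⟨K, hK⟩ : ∃ K : ℕ, 16 / θ + 1 ≤ (K : ℝ) := exists_nat_ge _
  have hKR : (1 : ℝ) ≤ K := by
    have : 0 < 16 / θ := by positivity
    linarith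
  have hK1 : 1 ≤ K := by exact_mod_cast hKR
  obtain ⟨N₀, hN₀⟩ := many_large hε K hK1
  obtain ⟨N, hN⟩ : ∃ N : ℕ, N = max N₀ (B + 1) := ⟨_, rfl⟩
  have hN1 : B + 1 ≤ N := by rw [hN]; exact le_max_right _ _
  have hN2 := hN₀ N (by rw [hN]; exact le_max_left _ _)
  have hNR : (1 : ℝ) ≤ N := by exact_mod_cast (by omega : 1 ≤ N)
  have hex : ∀ p : ℤ × ℤ, ∃ q : ℕ, p ∈ box (cen ε N) N \ Gd ε K N →
      ((q.Prime ∧ q % 4 = 1) ∧ q ∣ nm p ∧ K ^ 2 * N ^ 2 < q) := by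
    intro p
    by_cases hp : p ∈ box (cen ε N) N \ Gd ε K N
    · obtain ⟨h1, h2⟩ := Finset.mem_sdiff.1 hp
      unfold Gd at h2
      rw [mem_filter, not_and] at h2
      have h3 := h2 h1
      push Not at h3
      obtain ⟨q, hq, hq4, hd, hlt⟩ := h3
      exact ⟨q, fun _ => ⟨⟨hq, hq4⟩, hd, hlt⟩⟩
    · exact ⟨0, fun h => absurd h hp⟩
  choose g hg using hex
  refine ⟨(box (cen ε N) N \ Gd ε K N).image g, N, by omega, ?_, ?_, ?_⟩
  · intro q hq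
    obtain ⟨p, hp, rfl⟩ := mem_image.1 hq
    obtain ⟨h1, -, h3⟩ := hg p hp
    refine ⟨h1, ?_⟩
    have h4 : N ≤ K ^ 2 * N ^ 2 := by
      have : 1 ≤ K ^ 2 := Nat.one_le_pow _ _ hK1
      nlinarith [Nat.one_le_iff_ne_zero.2 (show N ≠ 0 by omega)]
    omega
  · have h1 : box (cen ε N) N \ Gd ε K N ⊆ Hit ε ((box (cen ε N) N \ Gd ε K N).image g) N := by
      intro p hp
      rw [mem_Hit]
      exact ⟨(mem_sdiff.1 hp).1, g p, mem_image_of_mem g hp, (hg p hp).2.1⟩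
    have h2 : (#(box (cen ε N) N \ Gd ε K N) : ℝ) ≤ #(Hit ε ((box (cen ε N) N \ Gd ε K N).image g) N) := by
      exact_mod_cast card_le_card h1
    have h3 : #(box (cen ε N) N) ≤ #(box (cen ε N) N \ Gd ε K N) + #(Gd ε K N) := by
      have := card_le_card (subset_union_left : box (cen ε N) N ⊆ box (cen ε N) N ∪ Gd ε K N)
      rw [← sdiff_union_self_eq_union] at this
      exact this.trans (card_union_le _ _)
    have h4 : (#(box (cen ε N) N) : ℝ) ≤ #(box (cen ε N) N \ Gd ε K N) + #(Gd ε K N) := by exact_mod_cast h3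
    linarith
  · have hF : ∀ q ∈ (box (cen ε N) N \ Gd ε K N).image g, q.Prime ∧ q % 4 = 1 := by
      intro q hq
      obtain ⟨p, hp, rfl⟩ := mem_image.1 hq
      exact (hg p hp).1
    have hsum : 4 * ∑ q ∈ (box (cen ε N) N \ Gd ε K N).image g, 1 / (q : ℝ) ≤ θ := by
      have h1 : ∀ q ∈ (box (cen ε N) N \ Gd ε K N).image g, 1 / (q : ℝ) ≤ 1 / ((K : ℝ) ^ 2 * (N : ℝ) ^ 2) := by
        intro q hq
        obtain ⟨p, hp, rfl⟩ := mem_image.1 hq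
        have h2 : (K : ℝ) ^ 2 * (N : ℝ) ^ 2 ≤ g p := by exact_mod_cast (hg p hp).2.2.le
        exact one_div_le_one_div_of_le (by positivity) h2
      have h2 := sum_le_sum h1
      rw [sum_const, nsmul_eq_mul] at h2
      have h3 : (#((box (cen ε N) N \ Gd ε K N).image g) : ℝ) ≤ 4 * (N : ℝ) ^ 2 := by
        have h4 : #((box (cen ε N) N \ Gd ε K N).image g) ≤ (2 * N) ^ 2 := by
          refine card_image_le.trans ((card_le_card sdiff_subset).trans ?_)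
          rw [card_box _ N (by omega)]
          exact Nat.pow_le_pow_left (by omega) 2
        have h5 : (#((box (cen ε N) N \ Gd ε K N).image g) : ℝ) ≤ (2 * (N : ℝ)) ^ 2 := by exact_mod_cast h4
        refine h5.trans (le_of_eq (by ring))
      have h4 : (#((box (cen ε N) N \ Gd ε K N).image g) : ℝ) * (1 / ((K : ℝ) ^ 2 * (N : ℝ) ^ 2)) ≤
          (4 * (N : ℝ) ^ 2) * (1 / ((K : ℝ) ^ 2 * (N : ℝ) ^ 2)) := by gcongr
      have h5 : (4 * (N : ℝ) ^ 2) * (1 / ((K : ℝ) ^ 2 * (N : ℝ) ^ 2)) = 4 / (K : ℝ) ^ 2 := by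
        field_simp
      have h6 : 16 / (K : ℝ) ^ 2 ≤ θ := by
        rw [div_le_iff₀ (by positivity)]
        have h7 : 16 ≤ θ * K := by
          have : 16 / θ ≤ K := by linarith
          rw [div_le_iff₀ hθ] at this
          linarith
        nlinarith
      calc 4 * ∑ q ∈ (box (cen ε N) N \ Gd ε K N).image g, 1 / (q : ℝ) ≤ 4 * (4 / (K : ℝ) ^ 2) := by
            rw [← h5]
            linarith
        _ = 16 / (K : ℝ) ^ 2 := by ring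
        _ ≤ θ := h6
    filter_upwards [hit_le (ε := ε) hF] with M hM
    refine hM.trans ?_
    gcongr

/-- the state of the construction: the block, the two scales and the index -/
abbrev St := Finset ℕ × ℕ × ℕ × ℕ

/-- the sequence of the blocks -/
lemma blocks {ε : ℝ} (hε : 0 < ε) {θ : ℝ} (hθ : 0 < θ) : ∃ u : ℕ → St,
    (∀ n, (∀ q ∈ (u n).1, q.Prime) ∧ (u n).2.2.2 ≤ (u n).2.1 ∧ (u n).2.2.2 ≤ (u n).2.2.1 ∧
      ε / (8 * (1 + ε)) * #(box (cen ε (u n).2.1) (u n).2.1) ≤ (#(Hit ε (u n).1 (u n).2.1) : ℝ) ∧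
      (∀ q ∈ (u n).1, ∀ p ∈ box (cen ε (u n).2.2.1) (u n).2.2.1, nm p < q) ∧
      ∀ᶠ M : ℕ in atTop, (#(Hit ε (u n).1 M) : ℝ) ≤ θ / 2 ^ ((u n).2.2.2 + 1) * #(box (cen ε M) M)) ∧
    ∀ m n, m < n → (u m).2.2.2 < (u n).2.2.2 ∧
      (#(Hit ε (u m).1 (u n).2.2.1) : ℝ) ≤ θ / 2 ^ ((u m).2.2.2 + 1) * #(box (cen ε (u n).2.2.1) (u n).2.2.1) ∧
      ∀ q ∈ (u n).1, ∀ p ∈ box (cen ε (u m).2.2.1) (u m).2.2.1, nm p < q := by
  classical
  apply exists_seq_of_forall_finset_exists (α := St)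
    (fun x => (∀ q ∈ x.1, q.Prime) ∧ x.2.2.2 ≤ x.2.1 ∧ x.2.2.2 ≤ x.2.2.1 ∧
      ε / (8 * (1 + ε)) * #(box (cen ε x.2.1) x.2.1) ≤ (#(Hit ε x.1 x.2.1) : ℝ) ∧
      (∀ q ∈ x.1, ∀ p ∈ box (cen ε x.2.2.1) x.2.2.1, nm p < q) ∧
      ∀ᶠ M : ℕ in atTop, (#(Hit ε x.1 M) : ℝ) ≤ θ / 2 ^ (x.2.2.2 + 1) * #(box (cen ε M) M))
    (fun x y => x.2.2.2 < y.2.2.2 ∧
      (#(Hit ε x.1 y.2.2.1) : ℝ) ≤ θ / 2 ^ (x.2.2.2 + 1) * #(box (cen ε y.2.2.1) y.2.2.1) ∧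
      ∀ q ∈ y.1, ∀ p ∈ box (cen ε x.2.2.1) x.2.2.1, nm p < q)
  intro s hs
  obtain ⟨k, hk⟩ : ∃ k : ℕ, k = ∑ x ∈ s, x.2.2.2 + 1 := ⟨_, rfl⟩
  have hkx : ∀ x ∈ s, x.2.2.2 < k := by
    intro x hx
    have : x.2.2.2 ≤ ∑ x ∈ s, x.2.2.2 :=
      single_le_sum (f := fun x : St => x.2.2.2) (fun _ _ => Nat.zero_le _) hx
    omega
  have hev : ∀ᶠ M : ℕ in atTop, (∀ x ∈ s, (#(Hit ε x.1 M) : ℝ) ≤ θ / 2 ^ (x.2.2.2 + 1) * #(box (cen ε M) M)) ∧ k ≤ M := by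
    refine Filter.Eventually.and ?_ (eventually_ge_atTop k)
    rw [Filter.eventually_all_finset]
    intro x hx
    exact (hs x hx).2.2.2.2.2
  obtain ⟨M, hM1, hM2⟩ := hev.exists
  obtain ⟨B, hB⟩ : ∃ B : ℕ, B = k + ∑ p ∈ box (cen ε M) M, nm p +
      ∑ x ∈ s, ∑ p ∈ box (cen ε x.2.2.1) x.2.2.1, nm p := ⟨_, rfl⟩
  obtain ⟨F, N, hBN, hF, hhit, hevF⟩ := block hε (θ := θ / 2 ^ (k + 1)) (by positivity) B
  refine ⟨(F, N, M, k), ⟨fun q hq => (hF q hq).1.1, ?_, hM2, hhit, ?_, hevF⟩, ?_⟩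
  · show k ≤ N
    omega
  · intro q hq p hp
    have h1 := (hF q hq).2
    have h2 : nm p ≤ ∑ p ∈ box (cen ε M) M, nm p :=
      single_le_sum (f := fun p : ℤ × ℤ => nm p) (fun _ _ => Nat.zero_le _) hp
    omega
  · intro x hx
    refine ⟨hkx x hx, hM1 x hx, ?_⟩
    intro q hq p hp
    have h1 := (hF q hq).2
    have h2 : nm p ≤ ∑ p ∈ box (cen ε x.2.2.1) x.2.2.1, nm p :=
      single_le_sum (f := fun p : ℤ × ℤ => nm p) (fun _ _ => Nat.zero_le _) hp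
    have h3 : ∑ p ∈ box (cen ε x.2.2.1) x.2.2.1, nm p ≤ ∑ x ∈ s, ∑ p ∈ box (cen ε x.2.2.1) x.2.2.1, nm p :=
      single_le_sum (f := fun x : St => ∑ p ∈ box (cen ε x.2.2.1) x.2.2.1, nm p)
      (fun _ _ => Nat.zero_le _) hx
    omega

end Pool.Agent.N792.SQ
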