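import Pool.Agent.N792.SQ.Dg

/-!
The function (helper792).
-/

set_option autoImplicit false

namespace Pool.Agent.N792.SQ

open Finset Filter Topology

lemma natAbs_norm_toG (p : ℤ × ℤ) : (toG p).norm.natAbs = nm p := by
  unfold nm
  rw [norm_toG]
  have h : 0 ≤ p.1 ^ 2 + p.2 ^ 2 := by positivity
  obtain ⟨t, ht⟩ : ∃ t : ℤ, t = p.1 ^ 2 + p.2 ^ 2 := ⟨_, rfl⟩
  rw [← ht] at h ⊢
  omega

theorem exists_f {ε : ℝ} (hε : 0 < ε) (av : (GaussianInt → ℝ) → ℕ → ℝ)
    (hav : ∀ f N, av f N = (∑ p ∈ box (cen ε N) N, f (toG p)) / #(box (cen ε N) N)) :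
    ∃ f : GaussianInt → ℝ, (∀ z, f z = 0 ∨ f z = 1) ∧ (∀ m n : GaussianInt, m ≠ 0 → n ≠ 0 → f (m * n) = f m * f n) ∧
      ¬ ∃ L : ℝ, Tendsto (fun N : ℕ => av f N) atTop (𝓝 L) := by
  classical
  obtain ⟨c, hc⟩ : ∃ c : ℝ, c = ε / (8 * (1 + ε)) := ⟨_, rfl⟩
  have hc0 : 0 < c := by rw [hc]; positivity
  obtain ⟨u, hu, hr⟩ := blocks hε (θ := c / 2) (by positivity)
  rw [← hc] at hu
  have hkm : StrictMono (fun n => (u n).2.2.2) := fun m n h => (hr m n h).1
  have hkn : ∀ n, n ≤ (u n).2.2.2 := fun n => hkm.le_apply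
  obtain ⟨f, hf⟩ : ∃ f : GaussianInt → ℝ, f = fun z => if ∃ n, ∃ q ∈ (u n).1, q ∣ z.norm.natAbs then (0 : ℝ) else 1 :=
    ⟨_, rfl⟩
  have hf01 : ∀ z, f z = 0 ∨ f z = 1 := by
    intro z
    rw [hf]
    simp only
    split_ifs
    · left; rfl
    · right; rfl
  refine ⟨f, hf01, ?_, ?_⟩
  · intro m n _ _
    rw [hf]
    simp only
    have hiff : (∃ k, ∃ q ∈ (u k).1, q ∣ (m * n).norm.natAbs) ↔
        (∃ k, ∃ q ∈ (u k).1, q ∣ m.norm.natAbs) ∨ (∃ k, ∃ q ∈ (u k).1, q ∣ n.norm.natAbs) := by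
      rw [Zsqrtd.norm_mul, Int.natAbs_mul]
      constructor
      · rintro ⟨k, q, hq, hd⟩
        rcases (Nat.Prime.dvd_mul ((hu k).1 q hq)).1 hd with h | h
        · left; exact ⟨k, q, hq, h⟩
        · right; exact ⟨k, q, hq, h⟩
      · rintro (⟨k, q, hq, hd⟩ | ⟨k, q, hq, hd⟩)
        · exact ⟨k, q, hq, hd.mul_right _⟩
        · exact ⟨k, q, hq, hd.mul_left _⟩
    by_cases h1 : ∃ k, ∃ q ∈ (u k).1, q ∣ m.norm.natAbs
    · rw [if_pos (hiff.2 (Or.inl h1)), if_pos h1, zero_mul]
    · by_cases h2 : ∃ k, ∃ q ∈ (u k).1, q ∣ n.norm.natAbs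
      · rw [if_pos (hiff.2 (Or.inr h2)), if_pos h2, mul_zero]
      · rw [if_neg (fun h => (hiff.1 h).elim h1 h2), if_neg h1, if_neg h2, mul_one]
  · rintro ⟨L, hL⟩
    -- the values at the elements of the squares
    have hfv : ∀ p : ℤ × ℤ, f (toG p) = if ∃ n, ∃ q ∈ (u n).1, q ∣ nm p then (0 : ℝ) else 1 := by
      intro p
      rw [hf]
      simp only
      rw [natAbs_norm_toG]
    -- upper bound
    have hup : ∀ n, 1 ≤ n → av f (u n).2.1 ≤ 1 - c := by
      intro n hn
      obtain ⟨h1, h2, h3, h4, h5, h6⟩ := hu n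
      have hN1 : 1 ≤ (u n).2.1 := (hn.trans (hkn n)).trans h2
      have hb0 : (0 : ℝ) < #(box (cen ε (u n).2.1) (u n).2.1) := by
        rw [card_box _ _ hN1]
        have : 0 < (2 * (u n).2.1 - 1) ^ 2 := by
          have : 0 < 2 * (u n).2.1 - 1 := by omega
          positivity
        exact_mod_cast this
      rw [hav, div_le_iff₀ hb0]
      have h7 : ∑ p ∈ box (cen ε (u n).2.1) (u n).2.1, f (toG p) ≤
          ∑ p ∈ box (cen ε (u n).2.1) (u n).2.1, (1 - if p ∈ Hit ε (u n).1 (u n).2.1 then (1 : ℝ) else 0) := by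
        apply sum_le_sum
        intro p _
        rw [hfv]
        by_cases hp : p ∈ Hit ε (u n).1 (u n).2.1
        · obtain ⟨-, q, hq, hd⟩ := mem_Hit.1 hp
          rw [if_pos ⟨n, q, hq, hd⟩, if_pos hp]
          norm_num
        · rw [if_neg hp]
          split_ifs <;> norm_num
      refine h7.trans ?_
      rw [sum_sub_distrib, sum_const, nsmul_eq_mul, mul_one, ← sum_filter, sum_const, nsmul_eq_mul, mul_one]
      have h8 : (box (cen ε (u n).2.1) (u n).2.1).filter (fun p => p ∈ Hit ε (u n).1 (u n).2.1) =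
          Hit ε (u n).1 (u n).2.1 := by
        ext p
        rw [mem_filter]
        exact ⟨fun h => h.2, fun h => ⟨(mem_Hit.1 h).1, h⟩⟩
      rw [h8]
      linarith
    -- lower bound
    have hlow : ∀ n, 1 ≤ n → 1 - c / 2 ≤ av f (u n).2.2.1 := by
      intro n hn
      obtain ⟨h1, h2, h3, h4, h5, h6⟩ := hu n
      have hN1 : 1 ≤ (u n).2.2.1 := (hn.trans (hkn n)).trans h3
      have hb0 : (0 : ℝ) < #(box (cen ε (u n).2.2.1) (u n).2.2.1) := by
        rw [card_box _ _ hN1]
        have : 0 < (2 * (u n).2.2.1 - 1) ^ 2 := by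
          have : 0 < 2 * (u n).2.2.1 - 1 := by omega
          positivity
        exact_mod_cast this
      rw [hav, le_div_iff₀ hb0]
      have h7 : ∑ p ∈ box (cen ε (u n).2.2.1) (u n).2.2.1,
          (1 - ∑ m ∈ range n, if p ∈ Hit ε (u m).1 (u n).2.2.1 then (1 : ℝ) else 0) ≤
          ∑ p ∈ box (cen ε (u n).2.2.1) (u n).2.2.1, f (toG p) := by
        apply sum_le_sum
        intro p hp
        rw [hfv]
        have hnn : ∀ m ∈ range n, (0 : ℝ) ≤ if p ∈ Hit ε (u m).1 (u n).2.2.1 then (1 : ℝ) else 0 := by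
          intro m _
          split_ifs <;> norm_num
        split_ifs with h
        · obtain ⟨m, q, hq, hd⟩ := h
          have hp0 := nm_pos_box hε hN1 p hp
          have hle := Nat.le_of_dvd hp0 hd
          have hmn : m < n := by
            by_contra hcon
            push Not at hcon
            rcases Nat.eq_or_lt_of_le hcon with he | hlt
            · subst he
              exact absurd (h5 q hq p hp) (by omega)
            · exact absurd ((hr n m hlt).2.2 q hq p hp) (by omega)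
          have h8 : (if p ∈ Hit ε (u m).1 (u n).2.2.1 then (1 : ℝ) else 0) = 1 :=
            if_pos (mem_Hit.2 ⟨hp, q, hq, hd⟩)
          have h9 := single_le_sum hnn (mem_range.2 hmn)
          rw [h8] at h9
          linarith
        · have := sum_nonneg hnn
          linarith
      refine le_trans ?_ h7
      rw [sum_sub_distrib, sum_const, nsmul_eq_mul, mul_one, sum_comm]
      have h8 : ∀ m ∈ range n, ∑ p ∈ box (cen ε (u n).2.2.1) (u n).2.2.1,
          (if p ∈ Hit ε (u m).1 (u n).2.2.1 then (1 : ℝ) else 0) ≤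
          c / 2 * (1 / 2) ^ (m + 1) * #(box (cen ε (u n).2.2.1) (u n).2.2.1) := by
        intro m hm
        rw [← sum_filter, sum_const, nsmul_eq_mul, mul_one]
        have h9 : (box (cen ε (u n).2.2.1) (u n).2.2.1).filter (fun p => p ∈ Hit ε (u m).1 (u n).2.2.1) =
            Hit ε (u m).1 (u n).2.2.1 := by
          ext p
          rw [mem_filter]
          exact ⟨fun h => h.2, fun h => ⟨(mem_Hit.1 h).1, h⟩⟩
        rw [h9]
        refine (hr m n (mem_range.1 hm)).2.1.trans ?_
        apply mul_le_mul_of_nonneg_right _ hb0.le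
        rw [div_eq_mul_one_div (c / 2)]
        apply mul_le_mul_of_nonneg_left _ (by positivity)
        rw [one_div_pow]
        apply one_div_le_one_div_of_le (by positivity)
        exact pow_le_pow_right₀ (by norm_num) (by have := hkn m; omega)
      have h9 := sum_le_sum h8
      rw [← sum_mul, ← mul_sum] at h9
      have h10 : ∑ m ∈ range n, ((1 : ℝ) / 2) ^ (m + 1) ≤ 1 := by
        have key : ∀ n : ℕ, ∑ m ∈ range n, ((1 : ℝ) / 2) ^ (m + 1) = 1 - (1 / 2) ^ n := by
          intro n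
          induction n with
          | zero => simp
          | succ n ih =>
            rw [sum_range_succ, ih, pow_succ]
            ring
        rw [key]
        have : (0 : ℝ) ≤ (1 / 2) ^ n := by positivity
        linarith
      have h11 : c / 2 * (∑ m ∈ range n, ((1 : ℝ) / 2) ^ (m + 1)) * #(box (cen ε (u n).2.2.1) (u n).2.2.1) ≤
          c / 2 * 1 * #(box (cen ε (u n).2.2.1) (u n).2.2.1) := by gcongr
      linarith
    -- the limits
    have t1 : Tendsto (fun n => (u n).2.1) atTop atTop := by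
      apply tendsto_atTop_mono _ tendsto_id
      intro n
      exact (hkn n).trans (hu n).2.1
    have t2 : Tendsto (fun n => (u n).2.2.1) atTop atTop := by
      apply tendsto_atTop_mono _ tendsto_id
      intro n
      exact (hkn n).trans (hu n).2.2.1
    have l1 : L ≤ 1 - c := le_of_tendsto (hL.comp t1) (eventually_atTop.2 ⟨1, fun n hn => hup n hn⟩)
    have l2 : 1 - c / 2 ≤ L := ge_of_tendsto (hL.comp t2) (eventually_atTop.2 ⟨1, fun n hn => hlow n hn⟩)
    linarith

end Pool.Agent.N792.SQ
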