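import Mathlib

/-!
Multiples of the powers of a Gaussian prime in a square (helper792).
-/

set_option autoImplicit false

namespace Pool.Agent.N792.SQ

open Finset

/-- the square -/
noncomputable def box (X N : ℕ) : Finset (ℤ × ℤ) := Ioo ((X : ℤ) - N) (X + N) ×ˢ Ioo (-(N : ℤ)) N

/-- the Gaussian integer -/
def toG (p : ℤ × ℤ) : GaussianInt := ⟨p.1, p.2⟩

/-- the norm -/
def nm (p : ℤ × ℤ) : ℕ := (p.1 ^ 2 + p.2 ^ 2).toNat

lemma norm_toG (p : ℤ × ℤ) : (toG p).norm = p.1 ^ 2 + p.2 ^ 2 := by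
  unfold toG
  rw [Zsqrtd.norm_def]
  ring

lemma nm_cast (p : ℤ × ℤ) : (nm p : ℤ) = p.1 ^ 2 + p.2 ^ 2 := by
  unfold nm
  rw [Int.toNat_of_nonneg]
  positivity

lemma card_box (X N : ℕ) (hN : 1 ≤ N) : #(box X N) = (2 * N - 1) ^ 2 := by
  unfold box
  rw [card_product, Int.card_Ioo, Int.card_Ioo]
  have h1 : ((X : ℤ) + N - (X - N) - 1).toNat = 2 * N - 1 := by omega
  have h2 : ((N : ℤ) - -N - 1).toNat = 2 * N - 1 := by omega
  rw [h1, h2]
  ring

open Classical in
/-- multiples of `β` in the square -/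
lemma mult_count {β : GaussianInt} {D : ℕ} (hD : 0 < D) (hβ : β.norm = D)
    (hdiv : ∀ k : ℤ, β ∣ (k : GaussianInt) → (D : ℤ) ∣ k) (X N s : ℕ) (hs : D ≤ s ^ 2) :
    #((box X N).filter (fun p => β ∣ toG p)) * D ≤ (2 * (N + s)) ^ 2 := by
  classical
  have hβ0 : β ≠ 0 := by
    rintro rfl
    rw [Zsqrtd.norm_zero] at hβ
    omega
  have hs0 : 1 ≤ s := by
    rcases Nat.eq_zero_or_pos s with h | h
    · rw [h] at hs; omega
    · exact h
  have hrem : ∀ k : ℕ, |(((k : ℤ) : GaussianInt) % β).re| < s ∧ |(((k : ℤ) : GaussianInt) % β).im| < s := by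
    intro k
    have h1 := GaussianInt.norm_mod_lt ((k : ℤ) : GaussianInt) hβ0
    rw [hβ, Zsqrtd.norm_def] at h1
    have h2 : (D : ℤ) ≤ (s : ℤ) ^ 2 := by exact_mod_cast hs
    constructor
    · rw [abs_lt]
      constructor <;> nlinarith [sq_nonneg ((((k : ℤ) : GaussianInt) % β).im)]
    · rw [abs_lt]
      constructor <;> nlinarith [sq_nonneg ((((k : ℤ) : GaussianInt) % β).re)]
  have h1 : #(((box X N).filter (fun p => β ∣ toG p)) ×ˢ range D) ≤ #(box X (N + s)) := by
    apply card_le_card_of_injOn (fun x => (x.1.1 + (((x.2 : ℤ) : GaussianInt) % β).re,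
      x.1.2 + (((x.2 : ℤ) : GaussianInt) % β).im))
    · intro x hx
      have hx' := mem_coe.1 hx
      rw [mem_product, mem_filter] at hx'
      obtain ⟨⟨hb, -⟩, -⟩ := hx'
      unfold box at hb
      rw [mem_product, mem_Ioo, mem_Ioo] at hb
      obtain ⟨r1, r2⟩ := hrem x.2
      rw [abs_lt] at r1 r2
      apply mem_coe.2
      unfold box
      rw [mem_product, mem_Ioo, mem_Ioo, Nat.cast_add]
      refine ⟨⟨?_, ?_⟩, ⟨?_, ?_⟩⟩ <;> (try dsimp only) <;> omega
    · intro x hx y hy hxy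
      have hx' := mem_coe.1 hx
      have hy' := mem_coe.1 hy
      rw [mem_product, mem_filter, mem_range] at hx' hy'
      simp only [Prod.mk.injEq] at hxy
      obtain ⟨e1, e2⟩ := hxy
      have h3 : toG x.1 + (((x.2 : ℤ) : GaussianInt) % β) = toG y.1 + (((y.2 : ℤ) : GaussianInt) % β) := by
        apply Zsqrtd.ext
        · rw [Zsqrtd.re_add, Zsqrtd.re_add]; exact e1
        · rw [Zsqrtd.im_add, Zsqrtd.im_add]; exact e2
      have h4 : β ∣ (((x.2 : ℤ) - (y.2 : ℤ) : ℤ) : GaussianInt) := by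
        have h5 : (((x.2 : ℤ) - (y.2 : ℤ) : ℤ) : GaussianInt) = toG y.1 - toG x.1 +
            β * (((x.2 : ℤ) : GaussianInt) / β - ((y.2 : ℤ) : GaussianInt) / β) := by
          rw [GaussianInt.mod_def, GaussianInt.mod_def] at h3
          push_cast at h3 ⊢
          linear_combination h3
        rw [h5]
        exact dvd_add (dvd_sub hy'.1.2 hx'.1.2) (dvd_mul_right _ _)
      have h6 := hdiv _ h4
      have h7 : (x.2 : ℤ) - (y.2 : ℤ) = 0 := by
        apply Int.eq_zero_of_abs_lt_dvd h6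
        rw [abs_lt]
        constructor <;> omega
      have h8 : x.2 = y.2 := by omega
      rw [h8] at h3
      have h9 : toG x.1 = toG y.1 := add_right_cancel h3
      apply Prod.ext
      · apply Prod.ext
        · exact congrArg Zsqrtd.re h9
        · exact congrArg Zsqrtd.im h9
      · exact h8
  rw [card_product, card_range, card_box X (N + s) (by omega)] at h1
  exact h1.trans (Nat.pow_le_pow_left (show 2 * (N + s) - 1 ≤ 2 * (N + s) by omega) 2)

section prime

variable {π : GaussianInt} {q : ℕ}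

lemma prime_pi (hq : q.Prime) (hπ : π.norm = q) : Prime π := by
  apply Irreducible.prime
  constructor
  · intro h
    have := (Zsqrtd.norm_eq_one_iff.2 h)
    rw [hπ] at this
    simp at this
    exact hq.one_lt.ne' this
  · intro a b hab
    have h1 : a.norm * b.norm = q := by rw [← Zsqrtd.norm_mul, ← hab, hπ]
    have h2 : a.norm.natAbs * b.norm.natAbs = q := by
      rw [← Int.natAbs_mul, h1, Int.natAbs_natCast]
    rcases (Nat.prime_mul_iff.1 (h2 ▸ hq)) with ⟨-, h⟩ | ⟨-, h⟩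
    · right; exact Zsqrtd.norm_eq_one_iff.1 h
    · left; exact Zsqrtd.norm_eq_one_iff.1 h

lemma dvd_of_pi_dvd (hq : q.Prime) (hπ : π.norm = q) (k : ℤ) (h : π ∣ (k : GaussianInt)) : (q : ℤ) ∣ k := by
  obtain ⟨w, hw⟩ := h
  have h1 : (k : GaussianInt).norm = π.norm * w.norm := by rw [hw, Zsqrtd.norm_mul]
  rw [Zsqrtd.norm_intCast, hπ] at h1
  have h2 : (q : ℤ) ∣ k * k := ⟨_, h1⟩
  rcases (Nat.prime_iff_prime_int.1 hq).dvd_or_dvd h2 with h | h <;> exact h

lemma not_dvd_star (hq : q.Prime) (hq2 : q ≠ 2) (hπ : π.norm = q) : ¬ π ∣ star π := by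
  intro h
  have h1 : π ∣ ((2 * π.re : ℤ) : GaussianInt) := by
    have h2 : ((2 * π.re : ℤ) : GaussianInt) = π + star π := by
      apply Zsqrtd.ext
      · rw [Zsqrtd.re_add, Zsqrtd.re_star, Zsqrtd.re_intCast]; ring
      · rw [Zsqrtd.im_add, Zsqrtd.im_star, Zsqrtd.im_intCast]; ring
    rw [h2]
    exact dvd_add (dvd_refl _) h
  have h3 := dvd_of_pi_dvd hq hπ _ h1
  have h4 : (q : ℤ) ∣ π.re := by
    rcases (Nat.prime_iff_prime_int.1 hq).dvd_or_dvd h3 with h | h
    · exfalso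
      have := Int.le_of_dvd (by norm_num) h
      have := hq.two_le
      omega
    · exact h
  rw [Zsqrtd.norm_def] at hπ
  have hq1 : (1 : ℤ) < q := by exact_mod_cast hq.one_lt
  obtain ⟨t, ht⟩ := h4
  by_cases ht0 : t = 0
  · rw [ht, ht0] at hπ
    have h5 : π.im * π.im = q := by linarith
    have h6 : (q : ℤ) ∣ π.im := by
      rcases (Nat.prime_iff_prime_int.1 hq).dvd_or_dvd (Dvd.intro_left _ (by rw [one_mul]; exact h5.symm ▸ rfl) : (q : ℤ) ∣ π.im * π.im) with h | h <;> exact h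
    obtain ⟨u, hu⟩ := h6
    rw [hu] at h5
    have h7 : (q : ℤ) * (q * (u * u)) = q * 1 := by linarith
    have h8 := mul_left_cancel₀ (by omega : (q : ℤ) ≠ 0) h7
    have h9 : (q : ℤ) ∣ 1 := ⟨_, h8.symm⟩
    have := Int.le_of_dvd one_pos h9
    omega
  · have h5 : 1 ≤ t * t := by
      have := mul_self_pos.2 ht0
      omega
    rw [ht] at hπ
    have h6 : (q : ℤ) * q ≤ q * q * (t * t) := le_mul_of_one_le_right (by positivity) h5
    have h7 : (q : ℤ) < q * q := by nlinarith
    have h8 : (q : ℤ) * t * (q * t) = q * q * (t * t) := by ring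
    rw [h8] at hπ
    nlinarith [mul_self_nonneg π.im]

lemma norm_star_pi (hπ : π.norm = q) : (star π).norm = q := by rw [Zsqrtd.norm_conj, hπ]

lemma pow_div (hq : q.Prime) (hq2 : q ≠ 2) (hπ : π.norm = q) (j : ℕ) : ∀ k : ℤ, π ^ j ∣ (k : GaussianInt) →
    ((q ^ j : ℕ) : ℤ) ∣ k := by
  induction j with
  | zero => intro k _; simp
  | succ j ih =>
    intro k hk
    have h1 : (q : ℤ) ∣ k := dvd_of_pi_dvd hq hπ k ((dvd_pow_self π (Nat.succ_ne_zero j)).trans hk)
    obtain ⟨t, ht⟩ := h1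
    have h2 : ((q : ℤ) : GaussianInt) = π * star π := by
      rw [← Zsqrtd.norm_eq_mul_conj, hπ]
    have hp := prime_pi hq hπ
    rw [ht] at hk
    have h3 : π ^ j ∣ star π * (t : GaussianInt) := by
      have h4 : π * π ^ j ∣ π * (star π * (t : GaussianInt)) := by
        rw [← pow_succ', ← mul_assoc, ← h2]
        have : (((q : ℤ) * t : ℤ) : GaussianInt) = ((q : ℤ) : GaussianInt) * (t : GaussianInt) := by push_cast; rfl
        rw [← this]
        exact hk
      exact (mul_dvd_mul_iff_left hp.ne_zero).1 h4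
    have h5 := hp.pow_dvd_of_dvd_mul_left j (not_dvd_star hq hq2 hπ) h3
    obtain ⟨u, hu⟩ := ih t h5
    rw [ht, hu]
    refine ⟨u, ?_⟩
    push_cast
    ring

lemma val_split (hq : q.Prime) (hπ : π.norm = q) (k : ℕ) : ∀ z : GaussianInt, ((q : ℤ) ^ k ∣ z.norm) →
    ∃ i l : ℕ, i + l = k ∧ π ^ i ∣ z ∧ (star π) ^ l ∣ z := by
  induction k with
  | zero => intro z _; exact ⟨0, 0, rfl, by simp, by simp⟩
  | succ k ih =>
    intro z hz
    have hp := prime_pi hq hπ
    have hq0 : (q : ℤ) ≠ 0 := by exact_mod_cast hq.ne_zero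
    have h1 : π ∣ z * star z := by
      rw [← Zsqrtd.norm_eq_mul_conj]
      have h2 : ((q : ℤ) : GaussianInt) = π * star π := by
        rw [← Zsqrtd.norm_eq_mul_conj, hπ]
      obtain ⟨t, ht⟩ := (dvd_pow_self (q : ℤ) (Nat.succ_ne_zero k)).trans hz
      rw [ht]
      push_cast
      have h3 : ((q : ℕ) : GaussianInt) = π * star π := by rw [← h2]; push_cast; rfl
      rw [h3, mul_assoc]
      exact dvd_mul_right _ _
    rcases hp.dvd_or_dvd h1 with h | h
    · obtain ⟨w, hw⟩ := h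
      have h4 : (q : ℤ) ^ k ∣ w.norm := by
        rw [hw, Zsqrtd.norm_mul, hπ, pow_succ'] at hz
        exact (mul_dvd_mul_iff_left hq0).1 hz
      obtain ⟨i, l, hil, hi, hl⟩ := ih w h4
      refine ⟨i + 1, l, by omega, ?_, ?_⟩
      · rw [hw, pow_succ']
        exact mul_dvd_mul_left _ hi
      · rw [hw]
        exact Dvd.dvd.mul_left hl _
    · have h5 : star π ∣ z := by
        obtain ⟨w, hw⟩ := h
        refine ⟨star w, ?_⟩
        have := congrArg star hw
        rw [star_star, star_mul] at this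
        rw [this, mul_comm]
      obtain ⟨w, hw⟩ := h5
      have h4 : (q : ℤ) ^ k ∣ w.norm := by
        rw [hw, Zsqrtd.norm_mul, norm_star_pi hπ, pow_succ'] at hz
        exact (mul_dvd_mul_iff_left hq0).1 hz
      obtain ⟨i, l, hil, hi, hl⟩ := ih w h4
      refine ⟨i, l + 1, by omega, ?_, ?_⟩
      · rw [hw]
        exact Dvd.dvd.mul_left hi _
      · rw [hw, pow_succ']
        exact mul_dvd_mul_left _ hl

end prime

end Pool.Agent.N792.SQ
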