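import Pool.Agent.N792.SQ.Ct

/-!
Many elements of the square have a large prime factor: the theorem (helper792).
-/

set_option autoImplicit false

namespace Pool.Agent.N792.SQ

open Finset Filter Topology

lemma cen_ge {ε : ℝ} (hε : 0 < ε) {N : ℕ} (hN : 1 ≤ N) : N ≤ cen ε N := by
  unfold cen
  apply Nat.le_floor
  have hNR : (1 : ℝ) ≤ N := by exact_mod_cast hN
  calc (N : ℝ) = (N : ℝ) ^ (1 : ℝ) := (Real.rpow_one _).symm
    _ ≤ (N : ℝ) ^ (1 + ε) := Real.rpow_le_rpow_of_exponent_le hNR (by linarith)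

lemma nm_le {ε : ℝ} (hε : 0 < ε) {N : ℕ} (hN : 1 ≤ N) : ∀ p ∈ box (cen ε N) N, nm p ≤ 5 * cen ε N ^ 2 := by
  intro p hp
  have hc := cen_ge hε hN
  unfold box at hp
  rw [mem_product, mem_Ioo, mem_Ioo] at hp
  obtain ⟨⟨h1, h2⟩, h3, h4⟩ := hp
  have hz : ((nm p : ℕ) : ℤ) ≤ ((5 * cen ε N ^ 2 : ℕ) : ℤ) := by
    rw [nm_cast]
    push_cast
    have h5 : p.1 ^ 2 ≤ 4 * (cen ε N : ℤ) ^ 2 := by nlinarith
    have h6 : p.2 ^ 2 ≤ (cen ε N : ℤ) ^ 2 := by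
      have : (N : ℤ) ≤ cen ε N := by exact_mod_cast hc
      nlinarith
    linarith
  exact_mod_cast hz

lemma le_nm {ε : ℝ} {N : ℕ} (hN : 1 ≤ N) (hN2 : 2 ≤ (N : ℝ) ^ ε) : ∀ p ∈ box (cen ε N) N,
    2 * (1 + ε) * Real.log N - Real.log 4 ≤ Real.log (nm p) := by
  intro p hp
  have hNR : (1 : ℝ) ≤ N := by exact_mod_cast hN
  unfold box at hp
  rw [mem_product, mem_Ioo, mem_Ioo] at hp
  obtain ⟨⟨h1, h2⟩, h3, h4⟩ := hp
  have h5 : (cen ε N : ℝ) - N + 1 ≤ (p.1 : ℝ) := by exact_mod_cast h1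
  have h6 : (N : ℝ) ^ (1 + ε) < (cen ε N : ℝ) + 1 := Nat.lt_floor_add_one _
  have h7 : (N : ℝ) ^ (1 + ε) = N * (N : ℝ) ^ ε := by
    rw [Real.rpow_add (by linarith), Real.rpow_one]
  have h8 : (N : ℝ) ^ (1 + ε) / 2 ≤ (p.1 : ℝ) := by
    rw [h7] at h6 ⊢
    nlinarith
  have hpos : 0 < (N : ℝ) ^ (1 + ε) := Real.rpow_pos_of_pos (by linarith) _
  have h9 : ((N : ℝ) ^ (1 + ε)) ^ 2 / 4 ≤ (nm p : ℝ) := by
    have e1 : ((nm p : ℕ) : ℝ) = (p.1 : ℝ) ^ 2 + (p.2 : ℝ) ^ 2 := by exact_mod_cast congrArg (fun z : ℤ => (z : ℝ)) (nm_cast p)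
    rw [e1]
    nlinarith [sq_nonneg (p.2 : ℝ)]
  have h10 : Real.log (((N : ℝ) ^ (1 + ε)) ^ 2 / 4) = 2 * (1 + ε) * Real.log N - Real.log 4 := by
    rw [Real.log_div (by positivity) (by norm_num), Real.log_pow, Real.log_rpow (by linarith)]
    push_cast
    ring
  rw [← h10]
  exact Real.log_le_log (by positivity) h9

/-- **many elements of the square have a large prime factor** -/
theorem many_large {ε : ℝ} (hε : 0 < ε) (K : ℕ) (hK : 1 ≤ K) : ∃ N₀ : ℕ, ∀ N : ℕ, N₀ ≤ N →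
    (#(Gd ε K N) : ℝ) ≤ (1 - ε / (8 * (1 + ε))) * #(box (cen ε N) N) := by
  classical
  obtain ⟨δ, hδd⟩ : ∃ δ : ℝ, δ = min 1 (ε / 16) := ⟨_, rfl⟩
  have hδ0 : 0 < δ := by rw [hδd]; apply lt_min <;> positivity
  have hδ1 : δ ≤ 1 := by rw [hδd]; exact min_le_left _ _
  have hδ2 : δ ≤ ε / 16 := by rw [hδd]; exact min_le_right _ _
  obtain ⟨C, hC0, hC⟩ := log_sum hδ0
  obtain ⟨B, hB⟩ : ∃ B : ℝ, B = C * (1 + Real.log K) + C * (K : ℝ) ^ 2 * (5 + 2 * ε) := ⟨_, rfl⟩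
  have hKR : (1 : ℝ) ≤ K := by exact_mod_cast hK
  have hlogK : 0 ≤ Real.log K := Real.log_nonneg hKR
  have hB0 : 0 ≤ B := by rw [hB]; positivity
  -- large `N`
  have e1 : ∀ᶠ N : ℕ in atTop, 2 * (B + 6) / ε ≤ Real.log (N : ℝ) :=
    (Real.tendsto_log_atTop.comp tendsto_natCast_atTop_atTop).eventually_ge_atTop _
  have e2 : ∀ᶠ N : ℕ in atTop, 1 ≤ Real.log (N : ℝ) :=
    (Real.tendsto_log_atTop.comp tendsto_natCast_atTop_atTop).eventually_ge_atTop _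
  have e3 : ∀ᶠ N : ℕ in atTop, (2 : ℝ) ≤ (N : ℝ) ^ ε :=
    ((tendsto_rpow_atTop hε).comp tendsto_natCast_atTop_atTop).eventually_ge_atTop _
  have e4 : ∀ᶠ N : ℕ in atTop, (8 + 8 * ε) * (1 + 1 / ε) * 2 ≤ (N : ℝ) :=
    tendsto_natCast_atTop_atTop.eventually_ge_atTop _
  obtain ⟨N₀, hN₀⟩ := eventually_atTop.1 (e1.and (e2.and (e3.and (e4.and (eventually_ge_atTop 2)))))
  refine ⟨N₀, fun N hN => ?_⟩
  obtain ⟨hn1, hn2, hn3, hn4, hn5⟩ := hN₀ N hN
  have hNR : (2 : ℝ) ≤ N := by exact_mod_cast hn5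
  obtain ⟨X, hX⟩ : ∃ X : ℕ, X = cen ε N := ⟨_, rfl⟩
  have hX1 : 1 ≤ X := by rw [hX]; exact (by omega : 1 ≤ N).trans (cen_ge hε (by omega))
  obtain ⟨T, hT⟩ : ∃ T : ℝ, T = Real.log N := ⟨_, rfl⟩
  rw [← hT] at hn1 hn2
  -- the sum
  have hsum := hC K X N (5 * X ^ 2) hK hn5 (by rw [hX]; exact nm_le hε (by omega))
  have hZ : Real.log ((5 * X ^ 2 : ℕ) : ℝ) / Real.log N ≤ 4 + 2 * ε := by
    have hXR : (X : ℝ) ≤ (N : ℝ) ^ (1 + ε) := by rw [hX]; exact Nat.floor_le (by positivity)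
    have hXR1 : (1 : ℝ) ≤ X := by exact_mod_cast hX1
    have h1 : Real.log ((5 * X ^ 2 : ℕ) : ℝ) ≤ 2 + 2 * (1 + ε) * T := by
      push_cast
      rw [Real.log_mul (by norm_num) (by positivity), Real.log_pow]
      have h2 : Real.log X ≤ (1 + ε) * T := by
        rw [hT, ← Real.log_rpow (by linarith)]
        exact Real.log_le_log (by linarith) hXR
      have h3 : Real.log 5 ≤ 2 := by
        rw [Real.log_le_iff_le_exp (by norm_num)]
        have := Real.exp_one_gt_d9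
        have h4 : Real.exp 2 = Real.exp 1 * Real.exp 1 := by rw [← Real.exp_add]; norm_num
        rw [h4]
        nlinarith
      push_cast
      linarith
    rw [← hT, div_le_iff₀ (by linarith)]
    nlinarith
  rw [← hT] at hsum hZ
  have hsum2 : ∑ p ∈ (box X N).filter (fun p => p.2 ≠ 0), (2 * Real.log (Int.gcd p.1 p.2) + Real.log 2 +
      ∑ q ∈ P1 (K ^ 2 * N ^ 2), ((nm p).factorization q : ℝ) * Real.log q) ≤ (N : ℝ) ^ 2 * ((8 + 4 * ε) * T + B) := by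
    refine hsum.trans (mul_le_mul_of_nonneg_left ?_ (by positivity))
    have h1 : 16 * (1 + δ) * (1 / 2 + δ) ≤ 8 + 4 * ε := by nlinarith
    have h2 : 16 * (1 + δ) * (1 / 2 + δ) * T ≤ (8 + 4 * ε) * T := mul_le_mul_of_nonneg_right h1 (by linarith)
    have h3 : C * (K : ℝ) ^ 2 * (1 + Real.log ((5 * X ^ 2 : ℕ) : ℝ) / T) ≤ C * (K : ℝ) ^ 2 * (5 + 2 * ε) := by
      apply mul_le_mul_of_nonneg_left _ (by positivity)
      linarith
    rw [hB]
    linarith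
  -- the elements
  obtain ⟨G', hG'⟩ : ∃ G' : Finset (ℤ × ℤ), G' = (Gd ε K N).filter (fun p => p.2 ≠ 0) := ⟨_, rfl⟩
  have hGd : ∀ p ∈ Gd ε K N, p ∈ box X N ∧ ∀ q : ℕ, q.Prime → q % 4 = 1 → q ∣ nm p → q ≤ K ^ 2 * N ^ 2 := by
    intro p hp
    unfold Gd at hp
    rw [mem_filter] at hp
    rw [hX]
    exact hp
  have hpt : ∀ p ∈ G', 2 * (1 + ε) * T - Real.log 4 ≤ 2 * Real.log (Int.gcd p.1 p.2) + Real.log 2 +
      ∑ q ∈ P1 (K ^ 2 * N ^ 2), ((nm p).factorization q : ℝ) * Real.log q := by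
    intro p hp
    rw [hG', mem_filter] at hp
    obtain ⟨hp1, hp2⟩ := hp
    obtain ⟨hp3, hp4⟩ := hGd p hp1
    have h1 := le_nm (ε := ε) (by omega) hn3 p (by rw [← hX]; exact hp3)
    rw [← hT] at h1
    have h2 := log_nm_le hp2
    have h3 : ∑ q ∈ (nm p).primeFactors.filter (fun q => q % 4 = 1), ((nm p).factorization q : ℝ) * Real.log q ≤
        ∑ q ∈ P1 (K ^ 2 * N ^ 2), ((nm p).factorization q : ℝ) * Real.log q := by
      apply sum_le_sum_of_subset_of_nonneg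
      · intro q hq
        rw [mem_filter] at hq
        have hqp := Nat.prime_of_mem_primeFactors hq.1
        unfold P1
        rw [mem_filter, mem_Icc]
        exact ⟨⟨hqp.one_lt.le, hp4 q hqp hq.2 (Nat.dvd_of_mem_primeFactors hq.1)⟩, hqp, hq.2⟩
      · intro q _ _
        exact mul_nonneg (Nat.cast_nonneg _) (Real.log_natCast_nonneg q)
    linarith
  have hmain : (#G' : ℝ) * (2 * (1 + ε) * T - Real.log 4) ≤ (N : ℝ) ^ 2 * ((8 + 4 * ε) * T + B) := by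
    refine le_trans ?_ hsum2
    rw [← nsmul_eq_mul, ← sum_const]
    refine (sum_le_sum hpt).trans ?_
    apply sum_le_sum_of_subset_of_nonneg
    · intro p hp
      rw [hG', mem_filter] at hp
      rw [mem_filter]
      exact ⟨(hGd p hp.1).1, hp.2⟩
    · intro p _ _
      have h1 : 0 ≤ Real.log (Int.gcd p.1 p.2) := Real.log_natCast_nonneg _
      have h2 : 0 ≤ Real.log 2 := Real.log_nonneg (by norm_num)
      have h3 : 0 ≤ ∑ q ∈ P1 (K ^ 2 * N ^ 2), ((nm p).factorization q : ℝ) * Real.log q :=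
        sum_nonneg fun q _ => mul_nonneg (Nat.cast_nonneg _) (Real.log_natCast_nonneg q)
      linarith
  have hcb : (#(box X N) : ℝ) = (2 * (N : ℝ) - 1) ^ 2 := by
    rw [card_box X N (by omega)]
    push_cast [Nat.cast_sub (show 1 ≤ 2 * N by omega)]
    ring
  have hG'4 : (#G' : ℝ) ≤ 4 * (N : ℝ) ^ 2 := by
    have h1 : #G' ≤ #(box X N) := by
      apply card_le_card
      intro p hp
      rw [hG', mem_filter] at hp
      exact (hGd p hp.1).1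
    have h2 : (#G' : ℝ) ≤ #(box X N) := by exact_mod_cast h1
    rw [hcb] at h2
    nlinarith
  have hGG : (#(Gd ε K N) : ℝ) ≤ #G' + 2 * N := by
    have h1 : Gd ε K N ⊆ G' ∪ (Ioo ((X : ℤ) - N) (X + N)).image (fun a => (a, (0 : ℤ))) := by
      intro p hp
      rw [mem_union]
      by_cases h0 : p.2 = 0
      · right
        have hb := (hGd p hp).1
        unfold box at hb
        rw [mem_product] at hb
        rw [mem_image]
        exact ⟨p.1, hb.1, Prod.ext rfl h0.symm⟩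
      · left
        rw [hG', mem_filter]
        exact ⟨hp, h0⟩
    have h2 : #(Gd ε K N) ≤ #G' + 2 * N := by
      refine (card_le_card h1).trans ((card_union_le _ _).trans (Nat.add_le_add le_rfl (card_image_le.trans ?_)))
      rw [Int.card_Ioo]
      omega
    exact_mod_cast h2
  have hl4 : Real.log 4 ≤ 3 / 2 := by
    have h1 : Real.log 4 = 2 * Real.log 2 := by
      rw [show (4 : ℝ) = 2 ^ 2 by norm_num, Real.log_pow]; push_cast; ring
    have := Real.log_two_lt_d9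
    rw [h1]; linarith
  have hl40 : 0 ≤ Real.log 4 := Real.log_nonneg (by norm_num)
  rw [← hX, hcb]
  obtain ⟨y, hy⟩ : ∃ y : ℝ, y = #(Gd ε K N) := ⟨_, rfl⟩
  rw [← hy] at hGG ⊢
  have hT0 : 0 < T := by linarith
  have k1 : (#G' : ℝ) * (2 * (1 + ε) * T) ≤ (N : ℝ) ^ 2 * ((8 + 4 * ε) * T + B + 6) := by
    have : (#G' : ℝ) * Real.log 4 ≤ (4 * (N : ℝ) ^ 2) * (3 / 2) := mul_le_mul hG'4 hl4 hl40 (by positivity)
    nlinarith
  have k2 : B + 6 ≤ ε / 2 * T := by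
    rw [div_le_iff₀ hε] at hn1
    linarith
  have k3 : 4 * (1 + ε) ≤ ε / 2 * N := by
    have h1 : (8 + 8 * ε) * (1 / ε) ≤ N := by
      have : 0 ≤ (8 + 8 * ε) * (1 + 2 / ε) := by positivity
      have e : (8 + 8 * ε) * (1 + 1 / ε) * 2 = (8 + 8 * ε) * (1 / ε) + ((8 + 8 * ε) * (1 / ε) + 2 * (8 + 8 * ε)) := by ring
      have : 0 ≤ (8 + 8 * ε) * (1 / ε) + 2 * (8 + 8 * ε) := by positivity
      linarith
    rw [mul_one_div, div_le_iff₀ hε] at h1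
    linarith
  have k4 : y * (2 * (1 + ε) * T) ≤ (N : ℝ) ^ 2 * ((8 + 5 * ε) * T) := by
    have h1 : y * (2 * (1 + ε) * T) ≤ (#G' + 2 * N) * (2 * (1 + ε) * T) := by gcongr
    have h2 : (#G' + 2 * (N : ℝ)) * (2 * (1 + ε) * T) = #G' * (2 * (1 + ε) * T) + N * T * (4 * (1 + ε)) := by ring
    have h3 : (N : ℝ) * T * (4 * (1 + ε)) ≤ N * T * (ε / 2 * N) := by gcongr
    have h4 : (N : ℝ) ^ 2 * ((8 + 4 * ε) * T + B + 6) ≤ (N : ℝ) ^ 2 * ((8 + 4 * ε) * T + ε / 2 * T) := by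
      apply mul_le_mul_of_nonneg_left _ (by positivity)
      linarith
    have h5 : (N : ℝ) ^ 2 * ((8 + 4 * ε) * T + ε / 2 * T) + N * T * (ε / 2 * N) = (N : ℝ) ^ 2 * ((8 + 5 * ε) * T) := by ring
    linarith
  have k5 : y * (2 * (1 + ε)) ≤ (N : ℝ) ^ 2 * (8 + 5 * ε) := by
    have h1 : (y * (2 * (1 + ε))) * T ≤ ((N : ℝ) ^ 2 * (8 + 5 * ε)) * T := by linarith
    exact le_of_mul_le_mul_right h1 hT0
  have k6 : 8 + 7 * ε ≤ 2 * ε * N := by linarith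
  have k7 : (N : ℝ) ^ 2 * (8 + 5 * ε) ≤ (2 + 7 / 4 * ε) * (2 * N - 1) ^ 2 := by
    have h1 : (8 + 7 * ε) * N ≤ 2 * ε * N * N := mul_le_mul_of_nonneg_right k6 (by linarith)
    nlinarith
  have k8 : y * (2 * (1 + ε)) ≤ ((1 - ε / (8 * (1 + ε))) * (2 * N - 1) ^ 2) * (2 * (1 + ε)) := by
    refine k5.trans (k7.trans (le_of_eq ?_))
    field_simp
    ring
  exact le_of_mul_le_mul_right k8 (by positivity)

end Pool.Agent.N792.SQ
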