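import Pool.Agent.N792.SQ.Cn

/-!
The content of the elements of the square (helper792).
-/

set_option autoImplicit false

namespace Pool.Agent.N792.SQ

open Finset

lemma fac_coprime {a b : ℤ} (hab : Int.gcd a b = 1) {q : ℕ} (hq : q.Prime) (hq4 : q % 4 ≠ 1) :
    ((a ^ 2 + b ^ 2).toNat).factorization q ≤ if q = 2 then 1 else 0 := by
  have hm : (((a ^ 2 + b ^ 2).toNat : ℕ) : ℤ) = a ^ 2 + b ^ 2 := Int.toNat_of_nonneg (by positivity)
  obtain ⟨m, hm'⟩ : ∃ m : ℕ, m = (a ^ 2 + b ^ 2).toNat := ⟨_, rfl⟩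
  rw [← hm'] at hm ⊢
  have hm0 : m ≠ 0 := by
    rintro h
    rw [h] at hm
    push_cast at hm
    have h1 : a ^ 2 = 0 := by nlinarith [sq_nonneg a, sq_nonneg b]
    have h2 : b ^ 2 = 0 := by nlinarith [sq_nonneg a, sq_nonneg b]
    rw [pow_eq_zero_iff two_ne_zero] at h1 h2
    rw [h1, h2] at hab
    simp at hab
  split_ifs with h2
  · subst h2
    by_contra hcon
    push Not at hcon
    have h3 : 2 ^ 2 ∣ m := (Nat.prime_two.pow_dvd_iff_le_factorization hm0).2 hcon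
    have h4 : (4 : ℤ) ∣ a ^ 2 + b ^ 2 := by
      rw [← hm]
      have : (4 : ℕ) ∣ m := by simpa using h3
      exact_mod_cast this
    have h5 : Even a ∧ Even b := by
      rcases Int.even_or_odd a with ha | ha <;> rcases Int.even_or_odd b with hb | hb
      · exact ⟨ha, hb⟩
      · exfalso
        obtain ⟨x, hx⟩ := ha
        obtain ⟨y, hy⟩ := hb
        obtain ⟨t, ht⟩ := h4
        rw [hx, hy] at ht
        have : 4 * (x ^ 2 + y ^ 2 + y) + 1 = 4 * t := by linarith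
        omega
      · exfalso
        obtain ⟨x, hx⟩ := ha
        obtain ⟨y, hy⟩ := hb
        obtain ⟨t, ht⟩ := h4
        rw [hx, hy] at ht
        have : 4 * (x ^ 2 + y ^ 2 + x) + 1 = 4 * t := by linarith
        omega
      · exfalso
        obtain ⟨x, hx⟩ := ha
        obtain ⟨y, hy⟩ := hb
        obtain ⟨t, ht⟩ := h4
        rw [hx, hy] at ht
        have : 4 * (x ^ 2 + y ^ 2 + x + y) + 2 = 4 * t := by linarith
        omega
    have h6 : (2 : ℤ) ∣ Int.gcd a b := Int.dvd_coe_gcd h5.1.two_dvd h5.2.two_dvd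
    rw [hab] at h6
    norm_num at h6
  · have hq3 : q % 4 = 3 := by
      have := hq.eq_two_or_odd
      omega
    rw [Nat.le_zero, Nat.factorization_eq_zero_iff]
    right; left
    intro hd
    have h7 : IsSquare (-1 : ZMod (m : ℤ).natAbs) :=
      ZMod.isSquare_neg_one_of_eq_sq_add_sq_of_isCoprime hm (Int.isCoprime_iff_gcd_eq_one.2 hab)
    rw [Int.natAbs_natCast] at h7
    exact Nat.mod_four_ne_three_of_mem_primeFactors_of_isSquare_neg_one (Nat.mem_primeFactors.2 ⟨hq, hd, hm0⟩) h7 hq3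

lemma log_nm_le {p : ℤ × ℤ} (hp : p.2 ≠ 0) : Real.log (nm p) ≤ 2 * Real.log (Int.gcd p.1 p.2) + Real.log 2 +
    ∑ q ∈ (nm p).primeFactors.filter (fun q => q % 4 = 1), ((nm p).factorization q : ℝ) * Real.log q := by
  obtain ⟨g, hg⟩ : ∃ g : ℕ, g = Int.gcd p.1 p.2 := ⟨_, rfl⟩
  have hg0 : 0 < Int.gcd p.1 p.2 := Int.gcd_pos_of_ne_zero_right _ hp
  obtain ⟨a, b, hab, ha, hb⟩ := Int.exists_gcd_one hg0
  rw [← hg] at ha hb hg0 ⊢
  obtain ⟨m, hm⟩ : ∃ m : ℕ, m = (a ^ 2 + b ^ 2).toNat := ⟨_, rfl⟩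
  have hmc : (m : ℤ) = a ^ 2 + b ^ 2 := by rw [hm]; exact Int.toNat_of_nonneg (by positivity)
  have hnm : nm p = g ^ 2 * m := by
    have h1 := nm_cast p
    rw [ha, hb] at h1
    have h2 : ((nm p : ℕ) : ℤ) = ((g ^ 2 * m : ℕ) : ℤ) := by
      rw [h1]
      push_cast
      rw [hmc]
      ring
    exact_mod_cast h2
  have hnm0 := nm_pos hp
  have hm0 : m ≠ 0 := by
    rintro h
    rw [h, mul_zero] at hnm
    omega
  have hlog : Real.log (nm p) = ∑ q ∈ (nm p).primeFactors, ((nm p).factorization q : ℝ) * Real.log q := by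
    rw [Real.log_nat_eq_sum_factorization]
    rfl
  have hlogg : Real.log g = ∑ q ∈ (nm p).primeFactors, (g.factorization q : ℝ) * Real.log q := by
    rw [Real.log_nat_eq_sum_factorization]
    apply Finsupp.sum_of_support_subset
    · intro q hq
      rw [Nat.support_factorization] at hq
      rw [hnm]
      exact Nat.primeFactors_mono ((Dvd.intro_left _ rfl : g ∣ g * g).trans (by rw [sq]; exact dvd_mul_right _ _)) (by rw [← hnm]; exact hnm0.ne') hq
    · intro i _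
      simp
  rw [hlog, ← sum_filter_add_sum_filter_not (nm p).primeFactors (fun q => q % 4 = 1)]
  have h1 : ∑ q ∈ (nm p).primeFactors.filter (fun q => ¬ q % 4 = 1), ((nm p).factorization q : ℝ) * Real.log q ≤
      ∑ q ∈ (nm p).primeFactors.filter (fun q => ¬ q % 4 = 1), (2 * ((g.factorization q : ℝ) * Real.log q) +
        if q = 2 then Real.log 2 else 0) := by
    apply sum_le_sum
    intro q hq
    rw [mem_filter] at hq
    have hqp := Nat.prime_of_mem_primeFactors hq.1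
    have h2 := fac_coprime hab hqp hq.2
    rw [← hm] at h2
    have h3 : (nm p).factorization q = 2 * g.factorization q + m.factorization q := by
      rw [hnm, Nat.factorization_mul (pow_ne_zero 2 hg0.ne') hm0, Nat.factorization_pow]
      simp
    have hlq : 0 ≤ Real.log q := Real.log_natCast_nonneg q
    rw [h3]
    push_cast
    split_ifs at h2 ⊢ with h4
    · subst h4
      have h5 : (m.factorization 2 : ℝ) ≤ 1 := by exact_mod_cast h2
      push_cast at hlq ⊢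
      nlinarith
    · have h5 : (m.factorization q : ℝ) = 0 := by
        have : m.factorization q = 0 := by omega
        exact_mod_cast this
      rw [h5]
      linarith
  have h2 : ∑ q ∈ (nm p).primeFactors.filter (fun q => ¬ q % 4 = 1), (2 * ((g.factorization q : ℝ) * Real.log q) +
        if q = 2 then Real.log 2 else 0) ≤ 2 * Real.log g + Real.log 2 := by
    rw [sum_add_distrib, ← mul_sum]
    have h3 : ∑ q ∈ (nm p).primeFactors.filter (fun q => ¬ q % 4 = 1), (g.factorization q : ℝ) * Real.log q ≤ Real.log g := by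
      rw [hlogg]
      apply sum_le_sum_of_subset_of_nonneg (filter_subset _ _)
      intro q _ _
      exact mul_nonneg (Nat.cast_nonneg _) (Real.log_natCast_nonneg q)
    have hl2 : 0 ≤ Real.log 2 := Real.log_nonneg (by norm_num)
    have h4 : ∑ q ∈ (nm p).primeFactors.filter (fun q => ¬ q % 4 = 1), (if q = 2 then Real.log 2 else 0) ≤ Real.log 2 := by
      rw [sum_ite_eq']
      split_ifs <;> linarith
    linarith
  linarith

lemma cnt_dvd (A : ℤ) {N d : ℕ} (hd : 1 ≤ d) (hdN : d ≤ N) :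
    (#((Ioo (A - N) (A + N)).filter (fun a => (d : ℤ) ∣ a)) : ℝ) ≤ 4 * N / d := by
  have hd0 : (0 : ℝ) < d := by exact_mod_cast hd
  have h1 : (Ioo (A - N) (A + N)).filter (fun a => (d : ℤ) ∣ a) ⊆
      (Icc ((A - N) / d) ((A - N) / d + 2 * N / d + 1)).image (fun t => d * t) := by
    intro a ha
    rw [mem_filter, mem_Ioo] at ha
    obtain ⟨⟨h2, h3⟩, t, ht⟩ := ha
    rw [mem_image]
    refine ⟨t, ?_, ht.symm⟩
    have hdz : (0 : ℤ) < d := by exact_mod_cast hd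
    rw [mem_Icc]
    constructor
    · apply Int.le_of_lt_add_one
      apply Int.ediv_lt_of_lt_mul hdz
      nlinarith
    · have e1 := Int.emod_add_mul_ediv (A - N) d
      have e2 := Int.emod_nonneg (A - N) hdz.ne'
      have e3 := Int.emod_lt_of_pos (A - N) hdz
      have e4 := Int.emod_add_mul_ediv (2 * N) d
      have e5 := Int.emod_lt_of_pos (2 * N) hdz
      by_contra hcon
      push Not at hcon
      have : (A - N) / d + 2 * N / d + 2 ≤ t := by omega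
      have h6 : (d : ℤ) * ((A - N) / d + 2 * N / d + 2) ≤ d * t := mul_le_mul_of_nonneg_left this hdz.le
      nlinarith
  have h2 : #((Ioo (A - N) (A + N)).filter (fun a => (d : ℤ) ∣ a)) ≤ 2 * N / d + 2 := by
    refine (card_le_card h1).trans (card_image_le.trans ?_)
    rw [Int.card_Icc]
    have e1 : (((2 * N / d : ℕ) : ℤ)) = 2 * (N : ℤ) / d := by push_cast; rfl
    have e2 : (A - N) / (d : ℤ) + 2 * N / d + 1 + 1 - (A - N) / d = (((2 * N / d + 2 : ℕ)) : ℤ) := by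
      push_cast
      ring
    rw [e2, Int.toNat_natCast]
  have h3 : (((2 * N / d : ℕ) : ℝ)) ≤ 2 * N / d := by
    have : (((2 * N / d : ℕ) : ℝ)) ≤ ((2 * N : ℕ) : ℝ) / d := Nat.cast_div_le
    push_cast at this
    exact this
  have h4 : (1 : ℝ) ≤ N / d := by
    rw [le_div_iff₀ hd0, one_mul]
    exact_mod_cast hdN
  have h5 : (#((Ioo (A - N) (A + N)).filter (fun a => (d : ℤ) ∣ a)) : ℝ) ≤ ((2 * N / d : ℕ) : ℝ) + 2 := by
    exact_mod_cast h2
  have e : 4 * (N : ℝ) / d = 2 * N / d + 2 * (N / d) := by ring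
  rw [e]
  linarith

/-- the sum of the logarithms of the contents -/
lemma sum_gcd : ∃ C : ℝ, ∀ X N : ℕ, 1 ≤ N →
    ∑ p ∈ (box X N).filter (fun p => p.2 ≠ 0), 2 * Real.log (Int.gcd p.1 p.2) ≤ C * (N : ℝ) ^ 2 := by
  classical
  have hsum : Summable (fun n : ℕ => 1 / (n : ℝ) ^ (3 / 2 : ℝ)) := Real.summable_one_div_nat_rpow.2 (by norm_num)
  refine ⟨64 * ∑' n : ℕ, 1 / (n : ℝ) ^ (3 / 2 : ℝ), fun X N hN => ?_⟩
  have h1 : ∀ p ∈ (box X N).filter (fun p => p.2 ≠ 0), 2 * Real.log (Int.gcd p.1 p.2) ≤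
      ∑ d ∈ Icc 1 N, 4 * (d : ℝ) ^ (1 / 2 : ℝ) * (if (d : ℤ) ∣ p.1 ∧ (d : ℤ) ∣ p.2 then 1 else 0) := by
    intro p hp
    rw [mem_filter] at hp
    have hb := hp.1
    unfold box at hb
    rw [mem_product, mem_Ioo, mem_Ioo] at hb
    obtain ⟨g, hg⟩ : ∃ g : ℕ, g = Int.gcd p.1 p.2 := ⟨_, rfl⟩
    have hg0 : 0 < Int.gcd p.1 p.2 := Int.gcd_pos_of_ne_zero_right _ hp.2
    rw [← hg] at hg0 ⊢
    have hg1 : (g : ℤ) ∣ p.1 := by rw [hg]; exact Int.gcd_dvd_left ..
    have hg2 : (g : ℤ) ∣ p.2 := by rw [hg]; exact Int.gcd_dvd_right ..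
    have hgN : g ≤ N := by
      have h2 : (g : ℤ) ∣ |p.2| := (dvd_abs _ _).2 hg2
      have h3 := Int.le_of_dvd (abs_pos.2 hp.2) h2
      have h4 : |p.2| < N := abs_lt.2 ⟨hb.2.1, hb.2.2⟩
      omega
    have h5 : Real.log g ≤ 2 * (g : ℝ) ^ (1 / 2 : ℝ) := by
      have := Real.log_le_rpow_div (show (0 : ℝ) ≤ g by positivity) (show (0 : ℝ) < 1 / 2 by norm_num)
      linarith
    calc 2 * Real.log g ≤ 4 * (g : ℝ) ^ (1 / 2 : ℝ) * (if (g : ℤ) ∣ p.1 ∧ (g : ℤ) ∣ p.2 then 1 else 0) := by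
          rw [if_pos ⟨hg1, hg2⟩]
          linarith
      _ ≤ _ := single_le_sum (f := fun d : ℕ => 4 * (d : ℝ) ^ (1 / 2 : ℝ) *
          (if (d : ℤ) ∣ p.1 ∧ (d : ℤ) ∣ p.2 then (1 : ℝ) else 0)) (fun d _ => by split_ifs <;> positivity)
          (mem_Icc.2 ⟨hg0, hgN⟩)
  refine (sum_le_sum h1).trans ?_
  rw [sum_comm]
  have h2 : ∀ d ∈ Icc 1 N, ∑ p ∈ (box X N).filter (fun p => p.2 ≠ 0), 4 * (d : ℝ) ^ (1 / 2 : ℝ) *
      (if (d : ℤ) ∣ p.1 ∧ (d : ℤ) ∣ p.2 then (1 : ℝ) else 0) ≤ 64 * (N : ℝ) ^ 2 * (1 / (d : ℝ) ^ (3 / 2 : ℝ)) := by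
    intro d hd
    rw [mem_Icc] at hd
    have hd0 : (0 : ℝ) < d := by exact_mod_cast hd.1
    rw [← mul_sum]
    have h3 : ∑ p ∈ (box X N).filter (fun p => p.2 ≠ 0), (if (d : ℤ) ∣ p.1 ∧ (d : ℤ) ∣ p.2 then (1 : ℝ) else 0) ≤
        (4 * N / d) * (4 * N / d) := by
      calc ∑ p ∈ (box X N).filter (fun p => p.2 ≠ 0), (if (d : ℤ) ∣ p.1 ∧ (d : ℤ) ∣ p.2 then (1 : ℝ) else 0)
          ≤ ∑ p ∈ box X N, (if (d : ℤ) ∣ p.1 ∧ (d : ℤ) ∣ p.2 then (1 : ℝ) else 0) :=
            sum_le_sum_of_subset_of_nonneg (filter_subset _ _) (fun _ _ _ => by split_ifs <;> norm_num)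
        _ = (#((Ioo ((X : ℤ) - N) (X + N)).filter (fun a => (d : ℤ) ∣ a)) : ℝ) *
            #((Ioo (-(N : ℤ)) N).filter (fun a => (d : ℤ) ∣ a)) := by
            unfold box
            rw [sum_product, card_filter, card_filter]
            push_cast
            rw [sum_mul_sum]
            refine sum_congr rfl fun a _ => sum_congr rfl fun b _ => ?_
            by_cases h1 : (d : ℤ) ∣ a <;> by_cases h2 : (d : ℤ) ∣ b <;> simp [h1, h2]
        _ ≤ _ := by
            have a1 := cnt_dvd (X : ℤ) hd.1 hd.2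
            have a2 := cnt_dvd (0 : ℤ) hd.1 hd.2
            rw [zero_sub, zero_add] at a2
            exact mul_le_mul a1 a2 (Nat.cast_nonneg _) (by positivity)
    calc 4 * (d : ℝ) ^ (1 / 2 : ℝ) * ∑ p ∈ (box X N).filter (fun p => p.2 ≠ 0),
          (if (d : ℤ) ∣ p.1 ∧ (d : ℤ) ∣ p.2 then (1 : ℝ) else 0)
        ≤ 4 * (d : ℝ) ^ (1 / 2 : ℝ) * ((4 * N / d) * (4 * N / d)) := by gcongr
      _ = 64 * (N : ℝ) ^ 2 * (1 / (d : ℝ) ^ (3 / 2 : ℝ)) := by
          have e : (d : ℝ) ^ (2 : ℕ) = (d : ℝ) ^ (3 / 2 : ℝ) * (d : ℝ) ^ (1 / 2 : ℝ) := by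
            rw [← Real.rpow_add hd0]
            norm_num
          have p1 : 0 < (d : ℝ) ^ (3 / 2 : ℝ) := by positivity
          have p2 : 0 < (d : ℝ) ^ (1 / 2 : ℝ) := by positivity
          calc 4 * (d : ℝ) ^ (1 / 2 : ℝ) * ((4 * N / d) * (4 * N / d)) =
              64 * (N : ℝ) ^ 2 * ((d : ℝ) ^ (1 / 2 : ℝ) / (d : ℝ) ^ (2 : ℕ)) := by
                field_simp
                ring
            _ = _ := by
                rw [e]
                field_simp
  refine (sum_le_sum h2).trans ?_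
  rw [← mul_sum]
  have h3 : ∑ d ∈ Icc 1 N, 1 / (d : ℝ) ^ (3 / 2 : ℝ) ≤ ∑' n : ℕ, 1 / (n : ℝ) ^ (3 / 2 : ℝ) :=
    hsum.sum_le_tsum _ (fun _ _ => by positivity)
  have h4 : 64 * (N : ℝ) ^ 2 * ∑ d ∈ Icc 1 N, 1 / (d : ℝ) ^ (3 / 2 : ℝ) ≤
      64 * (N : ℝ) ^ 2 * ∑' n : ℕ, 1 / (n : ℝ) ^ (3 / 2 : ℝ) := by gcongr
  refine h4.trans (le_of_eq (by ring))

end Pool.Agent.N792.SQ
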